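import Mathlib

set_option autoImplicit false

namespace Pool.Agent.Helper89

open Complex

/-- `‖1 - z x‖² = (1-x)² + 2x(1 - Re z)` for unimodular `z`. -/
lemma normSq_one_sub (z : ℂ) (hz : ‖z‖ = 1) (x : ℝ) :
    ‖1 - z * (x : ℂ)‖ ^ 2 = (1 - x) ^ 2 + 2 * x * (1 - z.re) := by
  have h1 : z.re * z.re + z.im * z.im = 1 := by
    have := Complex.normSq_apply z
    rw [Complex.normSq_eq_norm_sq, hz] at this
    linarith
  rw [← Complex.normSq_eq_norm_sq, Complex.normSq_apply]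
  simp
  linear_combination (x ^ 2) * h1

lemma one_sub_le_norm (z : ℂ) (hz : ‖z‖ ≤ 1) (x : ℝ) (hx : 0 ≤ x) :
    1 - x ≤ ‖1 - z * (x : ℂ)‖ := by
  have h : ‖z * (x : ℂ)‖ ≤ x := by
    rw [norm_mul, Complex.norm_real, Real.norm_of_nonneg hx]
    nlinarith [norm_nonneg z]
  have := norm_sub_norm_le (1 : ℂ) (z * (x : ℂ))
  rw [norm_one] at this
  linarith

/-- upper bound for the factor. -/
lemma factor_le (z : ℂ) (hz : ‖z‖ = 1) (x : ℝ) (hx : 0 ≤ x) (hx2 : x ≤ 1 / 2) :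
    ‖(1 - (x : ℂ)) / (1 - z * (x : ℂ))‖ ≤ Real.exp (-(1 / 3) * (x * (1 - z.re))) := by
  have hre : z.re ≤ 1 := by
    have := Complex.re_le_norm z
    linarith
  have hre' : -1 ≤ z.re := by
    have := Complex.abs_re_le_norm z
    rw [abs_le] at this
    linarith
  set u : ℝ := 2 * x * (1 - z.re) with hu
  have hu0 : 0 ≤ u := by
    rw [hu]; apply mul_nonneg (by linarith) (by linarith)
  have hu2 : u ≤ 2 := by
    rw [hu]
    nlinarith
  have hpos : 0 < ‖1 - z * (x : ℂ)‖ := by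
    have := one_sub_le_norm z hz.le x hx
    linarith
  have hsq : ‖1 - z * (x : ℂ)‖ ^ 2 = (1 - x) ^ 2 + u := by
    rw [normSq_one_sub z hz x, hu]
  have hexp : Real.exp (u / 3) ≤ 1 + u := by
    have h3 : Real.exp (u / 3) ≤ 1 / (1 - u / 3) := by
      have := Real.one_sub_le_exp_neg (u / 3)
      rw [le_div_iff₀ (by linarith), ]
      have h4 : Real.exp (u / 3) * Real.exp (-(u / 3)) = 1 := by
        rw [← Real.exp_add]; simp
      nlinarith [Real.exp_pos (u / 3)]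
    have h5 : 1 / (1 - u / 3) ≤ 1 + u := by
      rw [div_le_iff₀ (by linarith)]
      nlinarith
    linarith
  have hnum : ‖(1 - (x : ℂ))‖ = 1 - x := by
    have : (1 - (x : ℂ)) = ((1 - x : ℝ) : ℂ) := by push_cast; ring
    rw [this, Complex.norm_real, Real.norm_of_nonneg (by linarith)]
  rw [norm_div, hnum]
  rw [div_le_iff₀ hpos]
  -- square both sides
  have hE : 0 < Real.exp (-(1 / 3) * (x * (1 - z.re))) := Real.exp_pos _
  apply le_of_sq_le_sq _ (by positivity)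
  rw [mul_pow, hsq]
  have hE2 : Real.exp (-(1 / 3) * (x * (1 - z.re))) ^ 2 = Real.exp (-(u / 3)) := by
    rw [← Real.exp_nat_mul]
    congr 1
    rw [hu]; push_cast; ring
  rw [hE2]
  have h6 : Real.exp (-(u / 3)) * Real.exp (u / 3) = 1 := by
    rw [← Real.exp_add]; simp
  have h7 : (1 - x) ^ 2 ≤ 1 := by nlinarith
  have h8 : (1 - x) ^ 2 * (1 + u) ≤ (1 - x) ^ 2 + u := by nlinarith
  calc (1 - x) ^ 2 = Real.exp (-(u / 3)) * ((1 - x) ^ 2 * Real.exp (u / 3)) := by
        rw [mul_comm ((1 - x) ^ 2), ← mul_assoc, h6, one_mul]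
    _ ≤ Real.exp (-(u / 3)) * ((1 - x) ^ 2 * (1 + u)) := by
        apply mul_le_mul_of_nonneg_left _ (Real.exp_pos _).le
        apply mul_le_mul_of_nonneg_left hexp (by positivity)
    _ ≤ Real.exp (-(u / 3)) * ((1 - x) ^ 2 + u) := by
        apply mul_le_mul_of_nonneg_left h8 (Real.exp_pos _).le

/-- lower bound for the factor. -/
lemma factor_ge (z : ℂ) (hz : ‖z‖ = 1) (x : ℝ) (hx : 0 ≤ x) (hx2 : x ≤ 1 / 2) :
    Real.exp (-4 * (x * (1 - z.re))) ≤ ‖(1 - (x : ℂ)) / (1 - z * (x : ℂ))‖ := by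
  have hre : z.re ≤ 1 := by
    have := Complex.re_le_norm z
    linarith
  set u : ℝ := 2 * x * (1 - z.re) with hu
  have hu0 : 0 ≤ u := by
    rw [hu]; apply mul_nonneg (by linarith) (by linarith)
  have hpos : 0 < ‖1 - z * (x : ℂ)‖ := by
    have := one_sub_le_norm z hz.le x hx
    linarith
  have hsq : ‖1 - z * (x : ℂ)‖ ^ 2 = (1 - x) ^ 2 + u := by
    rw [normSq_one_sub z hz x, hu]
  have hnum : ‖(1 - (x : ℂ))‖ = 1 - x := by
    have : (1 - (x : ℂ)) = ((1 - x : ℝ) : ℂ) := by push_cast; ring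
    rw [this, Complex.norm_real, Real.norm_of_nonneg (by linarith)]
  rw [norm_div, hnum, le_div_iff₀ hpos]
  apply le_of_sq_le_sq _ (by linarith)
  rw [mul_pow, hsq]
  have hE2 : Real.exp (-4 * (x * (1 - z.re))) ^ 2 = Real.exp (-(4 * u)) := by
    rw [← Real.exp_nat_mul]
    congr 1
    rw [hu]; push_cast; ring
  rw [hE2]
  have h6 : Real.exp (-(4 * u)) * Real.exp (4 * u) = 1 := by
    rw [← Real.exp_add]; simp
  have h7 : 1 + 4 * u ≤ Real.exp (4 * u) := by
    have := Real.add_one_le_exp (4 * u); linarith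
  have h8 : (1 - x) ^ 2 + u ≤ (1 - x) ^ 2 * (1 + 4 * u) := by
    have : (1:ℝ) / 4 ≤ (1 - x) ^ 2 := by nlinarith
    nlinarith
  calc Real.exp (-(4 * u)) * ((1 - x) ^ 2 + u) 
      ≤ Real.exp (-(4 * u)) * ((1 - x) ^ 2 * (1 + 4 * u)) := by
        apply mul_le_mul_of_nonneg_left h8 (Real.exp_pos _).le
    _ ≤ Real.exp (-(4 * u)) * ((1 - x) ^ 2 * Real.exp (4 * u)) := by
        apply mul_le_mul_of_nonneg_left _ (Real.exp_pos _).le
        apply mul_le_mul_of_nonneg_left h7 (by positivity)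
    _ = (1 - x) ^ 2 := by
        rw [mul_comm ((1 - x) ^ 2), ← mul_assoc, h6, one_mul]

/-- the trivial bound for the factor. -/
lemma factor_le_one (z : ℂ) (hz : ‖z‖ ≤ 1) (x : ℝ) (hx : 0 ≤ x) (hx2 : x < 1) :
    ‖(1 - (x : ℂ)) / (1 - z * (x : ℂ))‖ ≤ 1 := by
  have hpos : 0 < ‖1 - z * (x : ℂ)‖ := by
    have := one_sub_le_norm z hz x hx
    linarith
  have hnum : ‖(1 - (x : ℂ))‖ = 1 - x := by
    have : (1 - (x : ℂ)) = ((1 - x : ℝ) : ℂ) := by push_cast; ring
    rw [this, Complex.norm_real, Real.norm_of_nonneg (by linarith)]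
  rw [norm_div, hnum, div_le_one hpos]
  exact one_sub_le_norm z hz x hx

/-- triangle inequality for the pretentious distance. -/
lemma pret_triangle (z w : ℂ) (hz : ‖z‖ = 1) (hw : ‖w‖ = 1) :
    (1 - (z * (starRingEnd ℂ) w).re) / 2 ≤ (1 - z.re) + (1 - w.re) := by
  have h1 : z.re * z.re + z.im * z.im = 1 := by
    have := Complex.normSq_apply z
    rw [Complex.normSq_eq_norm_sq, hz] at this
    linarith
  have h2 : w.re * w.re + w.im * w.im = 1 := by
    have := Complex.normSq_apply w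
    rw [Complex.normSq_eq_norm_sq, hw] at this
    linarith
  simp only [Complex.mul_re, Complex.conj_re, Complex.conj_im]
  nlinarith [sq_nonneg (z.re + w.re - 2), sq_nonneg (z.im + w.im)]

end Pool.Agent.Helper89
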