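import Pool.Agent.Helper89.A

set_option autoImplicit false

namespace Pool.Agent.Helper89

open Complex Nat

/-- the twisted completely multiplicative function `n ↦ χ(n) ψ(n) n^{-s}`. -/
noncomputable def twist (χ : ℕ →* ℂ) {N : ℕ} (ψ : DirichletCharacter ℂ N) (s : ℝ) : ℕ →* ℂ where
  toFun n := χ n * ψ (n : ZMod N) * (((n : ℝ) ^ (-s) : ℝ) : ℂ)
  map_one' := by simp
  map_mul' a b := by
    rw [map_mul]
    push_cast
    rw [map_mul, Real.mul_rpow (Nat.cast_nonneg a) (Nat.cast_nonneg b)]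
    push_cast
    ring

lemma twist_apply (χ : ℕ →* ℂ) {N : ℕ} (ψ : DirichletCharacter ℂ N) (s : ℝ) (n : ℕ) :
    twist χ ψ s n = χ n * ψ (n : ZMod N) * (((n : ℝ) ^ (-s) : ℝ) : ℂ) := rfl

lemma norm_twist_prime_lt (χ : ℕ →* ℂ) (hχ : ∀ n ≠ 0, ‖χ n‖ = 1) {N : ℕ}
    (ψ : DirichletCharacter ℂ N) (s : ℝ) (hs : 0 < s) {p : ℕ} (hp : p.Prime) :
    ‖twist χ ψ s p‖ < 1 := by
  rw [twist_apply, norm_mul, norm_mul, hχ p hp.ne_zero, one_mul, Complex.norm_real,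
    Real.norm_of_nonneg (by positivity)]
  have h1 : ‖ψ (p : ZMod N)‖ ≤ 1 := ψ.norm_le_one _
  have h2 : (p : ℝ) ^ (-s) < 1 :=
    Real.rpow_lt_one_of_one_lt_of_neg (by exact_mod_cast hp.one_lt) (by linarith)
  have h3 : 0 ≤ (p : ℝ) ^ (-s) := by positivity
  nlinarith [norm_nonneg (ψ (p : ZMod N))]

/-- the basic character-sum identity over `P`-factored numbers congruent to `1` mod `N`. -/
theorem hasSum_factored (χ : ℕ →* ℂ) (hχ : ∀ n ≠ 0, ‖χ n‖ = 1) (N : ℕ) [NeZero N]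
    (P : Finset ℕ) (hP : ∀ p ∈ P, p.Prime) (s : ℝ) (hs : 0 < s) :
    HasSum (fun m : factoredNumbers P =>
      if ((m : ℕ) : ZMod N) = 1 then (N.totient : ℂ) * (χ m * ((((m : ℕ) : ℝ) ^ (-s) : ℝ) : ℂ)) else 0)
      (∑ ψ : DirichletCharacter ℂ N, ∏ p ∈ P,
        (1 - χ p * ψ (p : ZMod N) * (((p : ℝ) ^ (-s) : ℝ) : ℂ))⁻¹) := by
  have h1 : ∀ ψ : DirichletCharacter ℂ N, HasSum (fun m : factoredNumbers P => twist χ ψ s m)
      (∏ p ∈ P, (1 - χ p * ψ (p : ZMod N) * (((p : ℝ) ^ (-s) : ℝ) : ℂ))⁻¹) := by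
    intro ψ
    have h2 := (EulerProduct.summable_and_hasSum_factoredNumbers_prod_filter_prime_geometric
      (f := twist χ ψ s) (fun {p} hp => norm_twist_prime_lt χ hχ ψ s hs hp) P).2
    have h3 : P.filter Nat.Prime = P := Finset.filter_true_of_mem hP
    rw [h3] at h2
    exact h2
  have h4 := hasSum_sum (s := Finset.univ) (fun ψ _ => h1 ψ)
  convert h4 using 1
  funext m
  simp only [twist_apply]
  have h5 : ∀ ψ : DirichletCharacter ℂ N, χ (m : ℕ) * ψ (((m : ℕ) : ZMod N)) * ((((m : ℕ) : ℝ) ^ (-s) : ℝ) : ℂ)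
      = (χ m * ((((m : ℕ) : ℝ) ^ (-s) : ℝ) : ℂ)) * ψ (((m : ℕ) : ZMod N)) := by
    intro ψ; ring
  simp_rw [h5]
  rw [← Finset.mul_sum, DirichletCharacter.sum_characters_eq]
  split_ifs with h
  · ring
  · ring

lemma summable_norm_factored (P : Finset ℕ) (s : ℝ) (hs : 0 < s) :
    Summable (fun m : factoredNumbers P => ((m : ℕ) : ℝ) ^ (-s)) := by
  have h2 := (EulerProduct.summable_and_hasSum_factoredNumbers_prod_filter_prime_geometric
      (f := twist 1 (1 : DirichletCharacter ℂ 1) s)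
      (fun {p} hp => norm_twist_prime_lt 1 (by intro n _; simp) _ s hs hp) P).1
  refine h2.congr ?_
  intro m
  rw [twist_apply, MonoidHom.one_apply, one_mul, MulChar.one_apply (isUnit_of_subsingleton _), one_mul,
    Complex.norm_real, Real.norm_of_nonneg (by positivity)]

/-- normalised Euler product over `P`. -/
noncomputable def EP (P : Finset ℕ) (g : ℕ → ℂ) : ℂ :=
  ∏ p ∈ P, ((1 - (((p : ℝ)⁻¹ : ℝ) : ℂ)) / (1 - g p * (((p : ℝ)⁻¹ : ℝ) : ℂ)))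

/-- `∏_{p∈P} (1-1/p)`. -/
noncomputable def DP (P : Finset ℕ) : ℝ := ∏ p ∈ P, (1 - (p : ℝ)⁻¹)

lemma DP_pos (P : Finset ℕ) (hP : ∀ p ∈ P, p.Prime) : 0 < DP P := by
  apply Finset.prod_pos
  intro p hp
  have h1 : (1 : ℝ) < p := by exact_mod_cast (hP p hp).one_lt
  have := inv_lt_one_of_one_lt₀ h1
  linarith

lemma EP_eq (P : Finset ℕ) (g : ℕ → ℂ) :
    EP P g = (DP P : ℂ) * ∏ p ∈ P, (1 - g p * (((p : ℝ)⁻¹ : ℝ) : ℂ))⁻¹ := by
  rw [EP, DP, Complex.ofReal_prod, ← Finset.prod_mul_distrib]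
  apply Finset.prod_congr rfl
  intro p _
  push_cast
  rw [div_eq_mul_inv]

/-- the functional `E`: normalised sum of `ρ(n)/n` over `P`-factored `n ≡ 1 mod N`. -/
noncomputable def EE (N : ℕ) (P : Finset ℕ) (ρ : ℕ → ℝ) : ℝ :=
  DP P * ∑' m : factoredNumbers P,
    if ((m : ℕ) : ZMod N) = 1 then (N.totient : ℝ) * (ρ m * ((m : ℕ) : ℝ)⁻¹) else 0

/-- For characters. -/
theorem hasSum_EE (χ : ℕ →* ℂ) (hχ : ∀ n ≠ 0, ‖χ n‖ = 1) (N : ℕ) [NeZero N]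
    (P : Finset ℕ) (hP : ∀ p ∈ P, p.Prime) :
    HasSum (fun m : factoredNumbers P =>
      (DP P : ℂ) * (if ((m : ℕ) : ZMod N) = 1 then (N.totient : ℂ) * (χ m * ((((m : ℕ) : ℝ)⁻¹ : ℝ) : ℂ)) else 0))
      (∑ ψ : DirichletCharacter ℂ N, EP P (fun p => χ p * ψ (p : ZMod N))) := by
  have h := (hasSum_factored χ hχ N P hP 1 one_pos).mul_left (DP P : ℂ)
  simp only [Real.rpow_neg_one] at h
  have key : (∑ ψ : DirichletCharacter ℂ N, EP P (fun p => χ p * ψ (p : ZMod N))) =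
      (DP P : ℂ) * ∑ ψ : DirichletCharacter ℂ N, ∏ p ∈ P,
        (1 - χ p * ψ (p : ZMod N) * (((p : ℝ)⁻¹ : ℝ) : ℂ))⁻¹ := by
    rw [Finset.mul_sum]
    apply Finset.sum_congr rfl
    intro ψ _
    rw [EP_eq]
  rw [key]
  exact h

end Pool.Agent.Helper89
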