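import Pool.Agent.Helper89.A

set_option autoImplicit false

namespace Pool.Agent.Helper89

open Complex Filter Topology DirichletCharacter

lemma ofReal_rpow_neg (p : ℕ) (s : ℝ) : ((((p : ℝ) ^ (-s) : ℝ)) : ℂ) = (p : ℂ) ^ (-(s : ℂ)) := by
  rw [Complex.ofReal_cpow (Nat.cast_nonneg p)]
  push_cast
  rfl

lemma norm_char_eq_one {N : ℕ} (ψ : DirichletCharacter ℂ N) {p : ℕ} (hp : p.Coprime N) :
    ‖ψ (p : ZMod N)‖ = 1 := by
  have hu : IsUnit (p : ZMod N) := (ZMod.isUnit_iff_coprime p N).mpr hp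
  obtain ⟨u, hu⟩ := hu
  rw [← hu]
  exact ψ.unit_norm_eq_one u

lemma rpow_neg_le_half {p : ℕ} (hp : p.Prime) {s : ℝ} (hs : 1 ≤ s) :
    (p : ℝ) ^ (-s) ≤ 1 / 2 := by
  have h2 : (2 : ℝ) ≤ p := by exact_mod_cast hp.two_le
  calc (p : ℝ) ^ (-s) ≤ (p : ℝ) ^ (-(1:ℝ)) := by
        apply Real.rpow_le_rpow_of_exponent_le (by linarith) (by linarith)
    _ = (p : ℝ)⁻¹ := Real.rpow_neg_one _
    _ ≤ 1 / 2 := by
        rw [inv_le_comm₀ (by linarith) (by norm_num)]
        linarith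

lemma rpow_neg_le_inv {p : ℕ} (hp : p.Prime) {s : ℝ} (hs : 1 ≤ s) :
    (p : ℝ) ^ (-s) ≤ 1 / p := by
  have h2 : (2 : ℝ) ≤ p := by exact_mod_cast hp.two_le
  calc (p : ℝ) ^ (-s) ≤ (p : ℝ) ^ (-(1:ℝ)) := by
        apply Real.rpow_le_rpow_of_exponent_le (by linarith) (by linarith)
    _ = 1 / p := by rw [Real.rpow_neg_one, one_div]

/-- finite comparison of Euler products -/
lemma finite_compare {N : ℕ} [NeZero N] (ψ : DirichletCharacter ℂ N) (n : ℕ) (s : ℝ) (hs : 1 < s)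
    (B : ℝ) (hB : ∑ p ∈ n.primesBelow with ¬ p ∣ N, (1 - (ψ p).re) / p ≤ B) :
    Real.exp (-4 * B) * ‖∏ p ∈ n.primesBelow, (1 - (1 : DirichletCharacter ℂ N) p * (p : ℂ) ^ (-(s : ℂ)))⁻¹‖
      ≤ ‖∏ p ∈ n.primesBelow, (1 - ψ p * (p : ℂ) ^ (-(s : ℂ)))⁻¹‖ := by
  rw [norm_prod, norm_prod]
  have h1 : Real.exp (-4 * B) ≤ ∏ p ∈ n.primesBelow,
      (if ¬ p ∣ N then Real.exp (-4 * ((1 - (ψ p).re) / p)) else 1) := by
    rw [← Finset.prod_filter, ← Real.exp_sum, ← Finset.mul_sum]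
    apply Real.exp_le_exp.mpr
    linarith
  refine le_trans (mul_le_mul_of_nonneg_right h1 (Finset.prod_nonneg fun _ _ => norm_nonneg _)) ?_
  rw [← Finset.prod_mul_distrib]
  apply Finset.prod_le_prod
  · intro p _
    apply mul_nonneg _ (norm_nonneg _)
    split_ifs <;> positivity
  · intro p hp
    have hpp : p.Prime := Nat.prime_of_mem_primesBelow hp
    by_cases hd : p ∣ N
    · have hnu : ¬ IsUnit (p : ZMod N) := by
        rwa [ZMod.isUnit_prime_iff_not_dvd hpp, not_not]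
      rw [MulChar.map_nonunit _ hnu, MulChar.map_nonunit _ hnu]
      simp [hd]
    · have hu : IsUnit (p : ZMod N) := (ZMod.isUnit_prime_iff_not_dvd hpp).mpr hd
      rw [MulChar.one_apply hu]
      simp only [hd, not_false_eq_true, if_true, one_mul]
      have hcop : p.Coprime N := (Nat.Prime.coprime_iff_not_dvd hpp).mpr hd
      have hnorm := norm_char_eq_one ψ hcop
      set x : ℝ := (p : ℝ) ^ (-s) with hx
      have hxc : (p : ℂ) ^ (-(s : ℂ)) = (x : ℂ) := by rw [hx, ofReal_rpow_neg]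
      rw [hxc]
      have hx0 : 0 ≤ x := by rw [hx]; positivity
      have hx2 : x ≤ 1 / 2 := rpow_neg_le_half hpp hs.le
      have hxp : x ≤ 1 / p := rpow_neg_le_inv hpp hs.le
      have hfac := factor_ge (ψ p) hnorm x hx0 hx2
      have hre : (ψ p).re ≤ 1 := by
        have := Complex.re_le_norm (ψ p)
        linarith
      have h2 : Real.exp (-4 * ((1 - (ψ p).re) / p)) ≤ Real.exp (-4 * (x * (1 - (ψ p).re))) := by
        apply Real.exp_le_exp.mpr
        have : x * (1 - (ψ p).re) ≤ (1 / p) * (1 - (ψ p).re) :=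
          mul_le_mul_of_nonneg_right hxp (by linarith)
        rw [div_mul_eq_mul_div, one_mul] at this
        linarith
      have h3 := h2.trans hfac
      rw [norm_div] at h3
      have hpos : 0 < ‖1 - ψ p * (x : ℂ)‖ := by
        have := one_sub_le_norm (ψ p) hnorm.le x hx0
        linarith
      have hnum : ‖(1 - (x : ℂ))‖ = 1 - x := by
        have : (1 - (x : ℂ)) = ((1 - x : ℝ) : ℂ) := by push_cast; ring
        rw [this, Complex.norm_real, Real.norm_of_nonneg (by linarith)]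
      rw [norm_inv, norm_inv, hnum]
      rw [hnum, le_div_iff₀ hpos] at h3
      have hpos' : 0 < 1 - x := by linarith
      rw [← div_eq_mul_inv, div_le_iff₀ hpos', inv_mul_eq_div, le_div_iff₀ hpos]
      exact h3

theorem nonprincipal_diverges {N : ℕ} [NeZero N] (ψ : DirichletCharacter ℂ N) (hψ : ψ ≠ 1)
    (B : ℝ) : ∃ n₀ : ℕ, ∀ n ≥ n₀, B ≤ ∑ p ∈ n.primesBelow with ¬ p ∣ N, (1 - (ψ p).re) / p := by
  have hnn : ∀ p : ℕ, 0 ≤ (1 - (ψ p).re) / p := by
    intro p
    apply div_nonneg _ (Nat.cast_nonneg p)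
    have h1 := Complex.re_le_norm (ψ p)
    have h2 := ψ.norm_le_one p
    linarith
  by_contra hcon
  push Not at hcon
  have hall : ∀ n : ℕ, ∑ p ∈ n.primesBelow with ¬ p ∣ N, (1 - (ψ p).re) / p ≤ B := by
    intro n
    obtain ⟨m, hm, hlt⟩ := hcon n
    refine le_trans ?_ hlt.le
    apply Finset.sum_le_sum_of_subset_of_nonneg
    · apply Finset.filter_subset_filter
      intro p hp
      rw [Nat.mem_primesBelow] at hp ⊢
      exact ⟨lt_of_lt_of_le hp.1 hm, hp.2⟩
    · intro p _ _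
      exact hnn p
  have hL : ∀ s : ℝ, 1 < s → Real.exp (-4 * B) * ‖LFunction (1 : DirichletCharacter ℂ N) s‖ ≤ ‖LFunction ψ s‖ := by
    intro s hs
    have hs' : 1 < (s : ℂ).re := by simpa using hs
    rw [LFunction_eq_LSeries _ hs', LFunction_eq_LSeries _ hs']
    have t1 := (DirichletCharacter.LSeries_eulerProduct (1 : DirichletCharacter ℂ N) hs').norm.const_mul (Real.exp (-4 * B))
    have t2 := (DirichletCharacter.LSeries_eulerProduct ψ hs').norm
    exact le_of_tendsto_of_tendsto' t1 t2 (fun n => finite_compare ψ n s hs B (hall n))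
  -- limit as s → 1+
  have hmap : Tendsto (fun s : ℝ => (s : ℂ)) (𝓝[>] 1) (𝓝[≠] 1) := by
    apply tendsto_nhdsWithin_of_tendsto_nhds_of_eventually_within
    · have : Tendsto (fun s : ℝ => (s : ℂ)) (𝓝 1) (𝓝 ((1 : ℝ) : ℂ)) := Complex.continuous_ofReal.tendsto 1
      rw [Complex.ofReal_one] at this
      exact this.mono_left nhdsWithin_le_nhds
    · filter_upwards [self_mem_nhdsWithin] with s hs
      simp only [Set.mem_compl_iff, Set.mem_singleton_iff]
      intro h
      have : s = 1 := by exact_mod_cast h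
      rw [this] at hs
      simp at hs
  have l1 : Tendsto (fun s : ℝ => ‖((s : ℂ) - 1) * LFunction (1 : DirichletCharacter ℂ N) s‖) (𝓝[>] 1)
      (𝓝 ‖∏ p ∈ N.primeFactors, (1 - (p : ℂ)⁻¹)‖) :=
    ((LFunctionTrivChar_residue_one (N := N)).comp hmap).norm
  have l2 : Tendsto (fun s : ℝ => ‖((s : ℂ) - 1) * LFunction ψ s‖) (𝓝[>] 1) (𝓝 0) := by
    have hc : Continuous (fun s : ℝ => ‖((s : ℂ) - 1) * LFunction ψ s‖) := by
      have := (differentiable_LFunction hψ).continuous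
      fun_prop
    have := hc.tendsto 1
    simp only [Complex.ofReal_one, sub_self, zero_mul, norm_zero] at this
    exact this.mono_left nhdsWithin_le_nhds
  have hle : Real.exp (-4 * B) * ‖∏ p ∈ N.primeFactors, (1 - (p : ℂ)⁻¹)‖ ≤ 0 := by
    apply le_of_tendsto_of_tendsto (l1.const_mul (Real.exp (-4 * B))) l2
    filter_upwards [self_mem_nhdsWithin] with s hs
    rw [norm_mul, norm_mul]
    have := hL s hs
    calc Real.exp (-4 * B) * (‖(s : ℂ) - 1‖ * ‖LFunction (1 : DirichletCharacter ℂ N) s‖)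
        = ‖(s : ℂ) - 1‖ * (Real.exp (-4 * B) * ‖LFunction (1 : DirichletCharacter ℂ N) s‖) := by ring
      _ ≤ ‖(s : ℂ) - 1‖ * ‖LFunction ψ s‖ := mul_le_mul_of_nonneg_left this (norm_nonneg _)
  have hpos : 0 < ‖∏ p ∈ N.primeFactors, (1 - (p : ℂ)⁻¹)‖ := by
    rw [norm_pos_iff, Finset.prod_ne_zero_iff]
    intro p hp
    have hpp : p.Prime := Nat.prime_of_mem_primeFactors hp
    rw [sub_ne_zero]
    intro h
    have h1 : (p : ℂ) = 1 := by
      rw [← inv_inv (p : ℂ), ← h, inv_one]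
    have : p = 1 := by exact_mod_cast h1
    exact hpp.one_lt.ne' this
  have := mul_pos (Real.exp_pos (-4 * B)) hpos
  linarith

end Pool.Agent.Helper89
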