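import Pool.Agent.Helper89.B
import Pool.Agent.Helper89.C

set_option autoImplicit false

namespace Pool.Agent.Helper89

open Complex Nat Filter

/-- primes in `(a, b]` -/
def PI (a b : ℕ) : Finset ℕ := (Finset.Ioc a b).filter Nat.Prime

lemma mem_PI {a b p : ℕ} : p ∈ PI a b ↔ (a < p ∧ p ≤ b) ∧ p.Prime := by
  simp [PI]

lemma PI_prime {a b p : ℕ} (h : p ∈ PI a b) : p.Prime := (mem_PI.mp h).2

lemma norm_EP_le_one (P : Finset ℕ) (hP : ∀ p ∈ P, p.Prime) (g : ℕ → ℂ) (hg : ∀ p ∈ P, ‖g p‖ ≤ 1) :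
    ‖EP P g‖ ≤ 1 := by
  rw [EP, norm_prod]
  apply Finset.prod_le_one
  · intro p _; exact norm_nonneg _
  · intro p hp
    have h1 : (1 : ℝ) < p := by exact_mod_cast (hP p hp).one_lt
    exact factor_le_one (g p) (hg p hp) _ (by positivity) (inv_lt_one_of_one_lt₀ h1)

lemma EP_split (a b c : ℕ) (hab : a ≤ b) (hbc : b ≤ c) (g : ℕ → ℂ) :
    EP (PI a c) g = EP (PI a b) g * EP (PI b c) g := by
  rw [EP, EP, EP, ← Finset.prod_union]
  · congr 1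
    ext p
    simp only [Finset.mem_union, mem_PI]
    constructor
    · rintro ⟨⟨h1, h2⟩, h3⟩
      by_cases h : p ≤ b
      · left; exact ⟨⟨h1, h⟩, h3⟩
      · right; exact ⟨⟨by omega, h2⟩, h3⟩
    · rintro (⟨⟨h1, h2⟩, h3⟩ | ⟨⟨h1, h2⟩, h3⟩)
      · exact ⟨⟨h1, by omega⟩, h3⟩
      · exact ⟨⟨by omega, h2⟩, h3⟩
  · rw [Finset.disjoint_left]
    intro p hp hq
    rw [mem_PI] at hp hq
    omega

lemma EP_congr (P : Finset ℕ) (g g' : ℕ → ℂ) (h : ∀ p ∈ P, g p = g' p) : EP P g = EP P g' := by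
  rw [EP, EP]
  apply Finset.prod_congr rfl
  intro p hp
  rw [h p hp]

lemma EP_self (a : ℕ) (g : ℕ → ℂ) : EP (PI a a) g = 1 := by
  rw [EP]
  have : PI a a = ∅ := by
    ext p; simp [mem_PI]
  rw [this, Finset.prod_empty]

lemma inv_prime_le_half {p : ℕ} (hp : p.Prime) : (p : ℝ)⁻¹ ≤ 1 / 2 := by
  have h2 : (2 : ℝ) ≤ p := by exact_mod_cast hp.two_le
  rw [inv_le_comm₀ (by linarith) (by norm_num)]
  linarith

/-- product of two twists is small. -/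
lemma norm_EP_mul_le (P : Finset ℕ) (hP : ∀ p ∈ P, p.Prime) (χ : ℕ → ℂ) (hχ : ∀ n ≠ 0, ‖χ n‖ = 1)
    (N : ℕ) (hN : ∀ p ∈ P, ¬ p ∣ N) (ψ₁ ψ₂ : DirichletCharacter ℂ N) :
    ‖EP P (fun p => χ p * ψ₁ (p : ZMod N))‖ * ‖EP P (fun p => χ p * ψ₂ (p : ZMod N))‖ ≤
      Real.exp (-(1 / 6) * ∑ p ∈ P, (1 - ((ψ₁ * ψ₂⁻¹) (p : ZMod N)).re) / p) := by
  rw [EP, EP, norm_prod, norm_prod, ← Finset.prod_mul_distrib, Finset.mul_sum, Real.exp_sum]
  apply Finset.prod_le_prod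
  · intro p _; positivity
  · intro p hp
    have hpp := hP p hp
    have hcop : p.Coprime N := (Nat.Prime.coprime_iff_not_dvd hpp).mpr (hN p hp)
    set x : ℝ := (p : ℝ)⁻¹ with hx
    have hx0 : 0 ≤ x := by positivity
    have hx2 : x ≤ 1 / 2 := inv_prime_le_half hpp
    have n1 : ‖χ p * ψ₁ (p : ZMod N)‖ = 1 := by
      rw [norm_mul, hχ p hpp.ne_zero, norm_char_eq_one ψ₁ hcop, one_mul]
    have n2 : ‖χ p * ψ₂ (p : ZMod N)‖ = 1 := by
      rw [norm_mul, hχ p hpp.ne_zero, norm_char_eq_one ψ₂ hcop, one_mul]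
    have f1 := factor_le _ n1 x hx0 hx2
    have f2 := factor_le _ n2 x hx0 hx2
    have f3 := pret_triangle _ _ n1 n2
    have f4 : (χ p * ψ₁ (p : ZMod N)) * (starRingEnd ℂ) (χ p * ψ₂ (p : ZMod N)) =
        (ψ₁ * ψ₂⁻¹) (p : ZMod N) := by
      rw [map_mul, MulChar.mul_apply]
      have e1 : χ p * (starRingEnd ℂ) (χ p) = 1 := by
        rw [Complex.mul_conj, Complex.normSq_eq_norm_sq, hχ p hpp.ne_zero]; simp
      have e2 : (starRingEnd ℂ) (ψ₂ (p : ZMod N)) = ψ₂⁻¹ (p : ZMod N) := by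
        rw [MulChar.inv_apply_eq_inv', Complex.inv_eq_conj (norm_char_eq_one ψ₂ hcop)]
      rw [← e2]
      calc χ p * ψ₁ (p : ZMod N) * ((starRingEnd ℂ) (χ p) * (starRingEnd ℂ) (ψ₂ (p : ZMod N)))
          = (χ p * (starRingEnd ℂ) (χ p)) * (ψ₁ (p : ZMod N) * (starRingEnd ℂ) (ψ₂ (p : ZMod N))) := by ring
        _ = _ := by rw [e1, one_mul]
    rw [f4] at f3
    calc _ ≤ Real.exp (-(1 / 3) * (x * (1 - (χ p * ψ₁ (p : ZMod N)).re))) *
          Real.exp (-(1 / 3) * (x * (1 - (χ p * ψ₂ (p : ZMod N)).re))) :=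
          mul_le_mul f1 f2 (norm_nonneg _) (Real.exp_pos _).le
      _ = Real.exp (-(1 / 3) * (x * ((1 - (χ p * ψ₁ (p : ZMod N)).re) + (1 - (χ p * ψ₂ (p : ZMod N)).re)))) := by
          rw [← Real.exp_add]; congr 1; ring
      _ ≤ Real.exp (-(1 / 6) * ((1 - ((ψ₁ * ψ₂⁻¹) (p : ZMod N)).re) / p)) := by
          apply Real.exp_le_exp.mpr
          have : (1 - ((ψ₁ * ψ₂⁻¹) (p : ZMod N)).re) / (p : ℝ) = (1 - ((ψ₁ * ψ₂⁻¹) (p : ZMod N)).re) * x := by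
            rw [hx, div_eq_mul_inv]
          rw [this]
          have := mul_le_mul_of_nonneg_right f3 hx0
          nlinarith

/-- next scale: smallness for all pairs of distinct characters. -/
theorem exists_next (N M : ℕ) [NeZero N] (hN : ∀ p : ℕ, p.Prime → (p ∣ N ↔ p ≤ M)) (η : ℝ) (hη : 0 < η) :
    ∀ᶠ M' in atTop, ∀ χ : ℕ → ℂ, (∀ n ≠ 0, ‖χ n‖ = 1) → ∀ ψ₁ ψ₂ : DirichletCharacter ℂ N, ψ₁ ≠ ψ₂ →
      ‖EP (PI M M') (fun p => χ p * ψ₁ (p : ZMod N))‖ *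
        ‖EP (PI M M') (fun p => χ p * ψ₂ (p : ZMod N))‖ ≤ η := by
  have h1 : ∀ ψ : DirichletCharacter ℂ N, ψ ≠ 1 → ∀ᶠ M' in atTop,
      -6 * Real.log η ≤ ∑ p ∈ PI M M', (1 - (ψ (p : ZMod N)).re) / p := by
    intro ψ hψ
    obtain ⟨n₀, hn₀⟩ := nonprincipal_diverges ψ hψ (-6 * Real.log η)
    filter_upwards [eventually_ge_atTop n₀] with M' hM'
    have h2 := hn₀ (M' + 1) (by omega)
    have h3 : (M' + 1).primesBelow.filter (fun p => ¬ p ∣ N) = PI M M' := by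
      ext p
      rw [Finset.mem_filter, Nat.mem_primesBelow, mem_PI]
      constructor
      · rintro ⟨⟨h4, h5⟩, h6⟩
        rw [hN p h5] at h6
        exact ⟨⟨by omega, by omega⟩, h5⟩
      · rintro ⟨⟨h4, h5⟩, h6⟩
        refine ⟨⟨by omega, h6⟩, ?_⟩
        rw [hN p h6]
        omega
    rw [h3] at h2
    exact h2
  have h2 : ∀ᶠ M' in atTop, ∀ ψ : DirichletCharacter ℂ N, ψ ≠ 1 →
      -6 * Real.log η ≤ ∑ p ∈ PI M M', (1 - (ψ (p : ZMod N)).re) / p := by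
    rw [eventually_all]
    intro ψ
    by_cases hψ : ψ = 1
    · exact Eventually.of_forall (fun _ h => absurd hψ h)
    · filter_upwards [h1 ψ hψ] with M' h _
      exact h
  filter_upwards [h2] with M' hM' χ hχ ψ₁ ψ₂ hne
  have hne' : ψ₁ * ψ₂⁻¹ ≠ 1 := by
    intro h
    exact hne (mul_inv_eq_one.mp h)
  have h3 := norm_EP_mul_le (PI M M') (fun p hp => PI_prime hp) χ hχ N
    (fun p hp => by rw [hN p (PI_prime hp)]; rw [mem_PI] at hp; omega) ψ₁ ψ₂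
  refine h3.trans ?_
  have h4 := hM' _ hne'
  calc Real.exp (-(1 / 6) * ∑ p ∈ PI M M', (1 - ((ψ₁ * ψ₂⁻¹) (p : ZMod N)).re) / p)
      ≤ Real.exp (Real.log η) := by
        apply Real.exp_le_exp.mpr
        linarith
    _ = η := Real.exp_log hη

end Pool.Agent.Helper89
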