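import Mathlib

set_option autoImplicit false

namespace Pool.Agent.Helper89

open Real

/-- upper bound in Mertens' first theorem. -/
theorem sum_log_div_le (M : ℕ) (hM : 1 ≤ M) :
    ∑ p ∈ M.primesLE, Real.log p / p ≤ Real.log M + Real.log 4 := by
  have hM0 : (0 : ℝ) < M := by exact_mod_cast hM
  have hdvd : ∏ p ∈ M.primesLE, p ^ (M / p) ∣ M.factorial := by
    apply Finset.prod_dvd_of_isRelPrime
    · intro p hp q hq hpq
      have hpp := Nat.prime_of_mem_primesLE (Finset.mem_coe.mp hp)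
      have hqq := Nat.prime_of_mem_primesLE (Finset.mem_coe.mp hq)
      have h1 : Nat.Coprime (p ^ (M / p)) (q ^ (M / q)) :=
        Nat.Coprime.pow _ _ ((Nat.coprime_primes hpp hqq).mpr hpq)
      exact Nat.coprime_iff_isRelPrime.mp h1
    · intro p hp
      have hpp := Nat.prime_of_mem_primesLE hp
      rw [hpp.pow_dvd_factorial_iff (b := Nat.log p M + 2) (by omega)]
      have hmem : 1 ∈ Finset.Ico 1 (Nat.log p M + 2) := by simp
      have := Finset.single_le_sum (f := fun i => M / p ^ i) (fun _ _ => Nat.zero_le _) hmem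
      simpa using this
  have hle : ∏ p ∈ M.primesLE, p ^ (M / p) ≤ M ^ M :=
    (Nat.le_of_dvd (Nat.factorial_pos M) hdvd).trans (Nat.factorial_le_pow M)
  have hlog : ∑ p ∈ M.primesLE, ((M / p : ℕ) : ℝ) * Real.log p ≤ M * Real.log M := by
    have h1 : Real.log ((∏ p ∈ M.primesLE, p ^ (M / p) : ℕ) : ℝ) ≤ Real.log ((M ^ M : ℕ) : ℝ) := by
      apply Real.log_le_log
      · have : 0 < ∏ p ∈ M.primesLE, p ^ (M / p) :=
          Finset.prod_pos fun p hp => pow_pos (Nat.prime_of_mem_primesLE hp).pos _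
        exact_mod_cast this
      · exact_mod_cast hle
    have h2 : Real.log ((∏ p ∈ M.primesLE, p ^ (M / p) : ℕ) : ℝ) =
        ∑ p ∈ M.primesLE, ((M / p : ℕ) : ℝ) * Real.log p := by
      push_cast
      rw [Real.log_prod (fun p hp => by
        have := (Nat.prime_of_mem_primesLE hp).pos
        positivity)]
      apply Finset.sum_congr rfl
      intro p _
      rw [Real.log_pow]
    have h3 : Real.log ((M ^ M : ℕ) : ℝ) = M * Real.log M := by
      push_cast
      rw [Real.log_pow]
    rw [h2, h3] at h1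
    exact h1
  have htheta : ∑ p ∈ M.primesLE, Real.log p ≤ Real.log 4 * M := by
    rw [← Chebyshev.theta_eq_sum_primesLE_log]
    exact Chebyshev.theta_le_log4_mul_x hM0.le
  have hkey : M * ∑ p ∈ M.primesLE, Real.log p / p ≤ M * (Real.log M + Real.log 4) := by
    have h1 : M * ∑ p ∈ M.primesLE, Real.log p / p ≤
        ∑ p ∈ M.primesLE, (((M / p : ℕ) : ℝ) * Real.log p + Real.log p) := by
      rw [Finset.mul_sum]
      apply Finset.sum_le_sum
      intro p hp
      have hpp := Nat.prime_of_mem_primesLE hp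
      have hp0 : (0 : ℝ) < p := by exact_mod_cast hpp.pos
      have hlp : 0 ≤ Real.log p := Real.log_nonneg (by exact_mod_cast hpp.one_lt.le)
      have h2 : (M : ℝ) / p ≤ ((M / p : ℕ) : ℝ) + 1 := by
        rw [div_le_iff₀ hp0]
        have : M ≤ (M / p + 1) * p := by
          have := Nat.lt_div_mul_add hpp.pos (a := M)
          nlinarith
        exact_mod_cast this
      calc (M : ℝ) * (Real.log p / p) = (M / p) * Real.log p := by ring
        _ ≤ (((M / p : ℕ) : ℝ) + 1) * Real.log p := mul_le_mul_of_nonneg_right h2 hlp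
        _ = _ := by ring
    rw [Finset.sum_add_distrib] at h1
    nlinarith
  exact le_of_mul_le_mul_left hkey hM0

/-- `∏_{p ≤ M} (1-1/p)⁻¹ ≥ log M`. -/
theorem log_le_prod (M : ℕ) (hM : 1 ≤ M) :
    Real.log M ≤ ∏ p ∈ M.primesLE, (1 - (p : ℝ)⁻¹)⁻¹ := by
  let f : ℕ →* ℝ :=
    { toFun := fun n => (n : ℝ)⁻¹
      map_one' := by simp
      map_mul' := by intro a b; push_cast; rw [mul_inv] }
  have hf : ∀ {p : ℕ}, p.Prime → ‖f p‖ < 1 := by
    intro p hp
    have h1 : (1 : ℝ) < p := by exact_mod_cast hp.one_lt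
    change ‖(p : ℝ)⁻¹‖ < 1
    rw [norm_inv, Real.norm_of_nonneg (by linarith)]
    exact inv_lt_one_of_one_lt₀ h1
  have key := EulerProduct.summable_and_hasSum_smoothNumbers_prod_primesBelow_geometric (f := f) hf (M + 1)
  have h1 : ∏ p ∈ M.primesLE, (1 - (p : ℝ)⁻¹)⁻¹ = ∑' m : (M + 1).smoothNumbers, f m :=
    key.2.tsum_eq.symm
  rw [h1]
  have h2 : Real.log M ≤ ∑ n ∈ Finset.Icc 1 M, (n : ℝ)⁻¹ := by
    have h3 := log_add_one_le_harmonic M
    have h4 : Real.log M ≤ Real.log ((M : ℝ) + 1) :=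
      Real.log_le_log (by exact_mod_cast hM) (by linarith)
    rw [harmonic_eq_sum_Icc] at h3
    push_cast at h3
    linarith
  refine h2.trans ?_
  have hsm : Summable (fun m : (M + 1).smoothNumbers => f m) := key.2.summable
  -- embed Icc into smooth numbers
  let e : (Finset.Icc 1 M) → (M + 1).smoothNumbers := fun n =>
    ⟨n.1, Nat.mem_smoothNumbers_of_lt (by have := Finset.mem_Icc.mp n.2; omega)
      (by have := Finset.mem_Icc.mp n.2; omega)⟩
  have he : Function.Injective e := by
    intro a b hab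
    have : (e a).1 = (e b).1 := by rw [hab]
    exact Subtype.ext this
  have h5 : ∑ n ∈ Finset.Icc 1 M, (n : ℝ)⁻¹ = ∑ n : (Finset.Icc 1 M), f (e n) := by
    rw [← Finset.sum_coe_sort]
    rfl
  rw [h5]
  have h6 : ∑ n : (Finset.Icc 1 M), f (e n) = ∑ m ∈ Finset.univ.map ⟨e, he⟩, f m := by
    rw [Finset.sum_map]
    rfl
  rw [h6]
  apply hsm.sum_le_tsum
  intro m _
  change (0 : ℝ) ≤ ((m : ℕ) : ℝ)⁻¹
  positivity

/-- For `σ = 1 / log M`, `∑_{p ≤ M} (p^σ - 1)/p ≤ 4`. -/
theorem sum_rankin_le (M : ℕ) (hM : 4 ≤ M) :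
    ∑ p ∈ M.primesLE, ((p : ℝ) ^ (1 / Real.log M) - 1) / p ≤ 4 := by
  have hM1 : (1 : ℝ) < M := by exact_mod_cast (by omega : 1 < M)
  have hlogM : 0 < Real.log M := Real.log_pos hM1
  have h1 : ∀ p ∈ M.primesLE, ((p : ℝ) ^ (1 / Real.log M) - 1) / p ≤
      (2 / Real.log M) * (Real.log p / p) := by
    intro p hp
    have hpp := Nat.prime_of_mem_primesLE hp
    have hpM := Nat.le_of_mem_primesLE hp
    have hp0 : (0 : ℝ) < p := by exact_mod_cast hpp.pos
    have hlp : 0 ≤ Real.log p := Real.log_nonneg (by exact_mod_cast hpp.one_lt.le)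
    have hle : Real.log p ≤ Real.log M := Real.log_le_log hp0 (by exact_mod_cast hpM)
    have h2 : (p : ℝ) ^ (1 / Real.log M) = Real.exp (Real.log p / Real.log M) := by
      rw [Real.rpow_def_of_pos hp0]
      congr 1
      ring
    have h3 : |Real.log p / Real.log M| ≤ 1 := by
      rw [abs_of_nonneg (by positivity), div_le_one hlogM]
      exact hle
    have h4 := Real.abs_exp_sub_one_le h3
    rw [abs_of_nonneg (a := Real.log p / Real.log M) (by positivity)] at h4
    have h5 := (abs_le.mp h4).2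
    rw [h2, div_le_iff₀ hp0]
    calc Real.exp (Real.log p / Real.log M) - 1 ≤ 2 * (Real.log p / Real.log M) := h5
      _ = 2 / Real.log M * (Real.log p / p) * p := by
        field_simp
  calc ∑ p ∈ M.primesLE, ((p : ℝ) ^ (1 / Real.log M) - 1) / p
      ≤ ∑ p ∈ M.primesLE, (2 / Real.log M) * (Real.log p / p) := Finset.sum_le_sum h1
    _ = (2 / Real.log M) * ∑ p ∈ M.primesLE, (Real.log p / p) := by rw [Finset.mul_sum]
    _ ≤ (2 / Real.log M) * (Real.log M + Real.log 4) := by
        apply mul_le_mul_of_nonneg_left (sum_log_div_le M (by omega)) (by positivity)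
    _ ≤ (2 / Real.log M) * (Real.log M + Real.log M) := by
        apply mul_le_mul_of_nonneg_left _ (by positivity)
        have : Real.log 4 ≤ Real.log M := Real.log_le_log (by norm_num) (by exact_mod_cast hM)
        linarith
    _ = 4 := by field_simp; ring

end Pool.Agent.Helper89
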