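import Pool.Agent.Helper89.D
import Pool.Agent.Helper89.E

set_option autoImplicit false

namespace Pool.Agent.Helper89

open Complex Nat Filter

/-- Rankin-type bound for the sum over `P`-factored `m ≡ 1 mod N` of `m^{σ-1}`. -/
theorem rankin_sum_le (N : ℕ) [NeZero N] (P : Finset ℕ) (hP : ∀ p ∈ P, p.Prime)
    (hP4 : ∀ p ∈ P, 4 ≤ p) (σ : ℝ) (hσ0 : 0 ≤ σ) (hσ : σ ≤ 1 / 2) :
    DP P * ∑' m : factoredNumbers P, (if ((m : ℕ) : ZMod N) = 1 then
        (N.totient : ℝ) * ((m : ℕ) : ℝ) ^ (-(1 - σ)) else 0) ≤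
      Real.exp (2 * ∑ p ∈ P, ((p : ℝ) ^ σ - 1) / p) *
        ∑ ψ : DirichletCharacter ℂ N, ‖EP P (fun p => ψ (p : ZMod N))‖ := by
  have hs : 0 < 1 - σ := by linarith
  have h := hasSum_factored 1 (by intro n _; simp) N P hP (1 - σ) hs
  -- real version of the sum
  have h1 : ((∑' m : factoredNumbers P, (if ((m : ℕ) : ZMod N) = 1 then
        (N.totient : ℝ) * ((m : ℕ) : ℝ) ^ (-(1 - σ)) else 0) : ℝ) : ℂ) =
      ∑ ψ : DirichletCharacter ℂ N, ∏ p ∈ P,
        (1 - (1 : ℕ →* ℂ) p * ψ (p : ZMod N) * (((p : ℝ) ^ (-(1 - σ)) : ℝ) : ℂ))⁻¹ := by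
    rw [Complex.ofReal_tsum, ← h.tsum_eq]
    apply tsum_congr
    intro m
    split_ifs with hm
    · push_cast
      simp
    · simp
  have hD := DP_pos P hP
  set S : ℝ := ∑' m : factoredNumbers P, (if ((m : ℕ) : ZMod N) = 1 then
        (N.totient : ℝ) * ((m : ℕ) : ℝ) ^ (-(1 - σ)) else 0) with hS
  have hS0 : 0 ≤ S := by
    rw [hS]
    apply tsum_nonneg
    intro m
    split_ifs <;> positivity
  have h2 : DP P * S = ‖(DP P : ℂ) * (S : ℂ)‖ := by
    rw [norm_mul, Complex.norm_real, Complex.norm_real, Real.norm_of_nonneg hD.le,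
      Real.norm_of_nonneg hS0]
  rw [h2, h1, Finset.mul_sum, Finset.mul_sum]
  refine (norm_sum_le _ _).trans ?_
  apply Finset.sum_le_sum
  intro ψ _
  rw [EP_eq, norm_mul, norm_mul, norm_prod, norm_prod]
  rw [mul_comm (Real.exp _), mul_assoc]
  apply mul_le_mul_of_nonneg_left _ (norm_nonneg _)
  rw [Finset.mul_sum, Real.exp_sum, ← Finset.prod_mul_distrib]
  apply Finset.prod_le_prod
  · intro p _; exact norm_nonneg _
  · intro p hp
    have hpp := hP p hp
    have hp4 : (4 : ℝ) ≤ p := by exact_mod_cast hP4 p hp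
    have hp0 : (0 : ℝ) < p := by linarith
    set z : ℂ := ψ (p : ZMod N) with hz
    have hz1 : ‖z‖ ≤ 1 := ψ.norm_le_one _
    rw [MonoidHom.one_apply, one_mul]
    set x : ℝ := (p : ℝ)⁻¹ with hx
    set y : ℝ := (p : ℝ) ^ (-(1 - σ)) with hy
    have hy0 : 0 ≤ y := by positivity
    have hyx : y = (p : ℝ) ^ σ * x := by
      rw [hy, hx, ← Real.rpow_neg_one, ← Real.rpow_add hp0]
      congr 1
      ring
    have hy2 : y ≤ 1 / 2 := by
      calc y ≤ (p : ℝ) ^ (-(1 / 2 : ℝ)) := by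
            rw [hy]
            apply Real.rpow_le_rpow_of_exponent_le (by linarith) (by linarith)
        _ ≤ (4 : ℝ) ^ (-(1 / 2 : ℝ)) := by
            apply Real.rpow_le_rpow_of_nonpos (by norm_num) hp4 (by norm_num)
        _ = 1 / 2 := by
            rw [show (4 : ℝ) = 2 ^ (2 : ℝ) by norm_num, ← Real.rpow_mul (by norm_num)]
            norm_num
    have hpσ : 1 ≤ (p : ℝ) ^ σ := Real.one_le_rpow (by linarith) hσ0
    have hx0 : 0 < x := by positivity
    have hxy : x ≤ y := by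
      rw [hyx]
      nlinarith
    have n1 : 1 / 2 ≤ ‖1 - z * (y : ℂ)‖ := by
      have := one_sub_le_norm z hz1 y hy0
      linarith
    have n2 : 0 < ‖1 - z * (x : ℂ)‖ := by
      have := one_sub_le_norm z hz1 x hx0.le
      linarith
    rw [norm_inv, norm_inv]
    have n3 : ‖1 - z * (x : ℂ)‖ ≤ ‖1 - z * (y : ℂ)‖ + (y - x) := by
      have e : (1 - z * (x : ℂ)) = (1 - z * (y : ℂ)) + z * ((y - x : ℝ) : ℂ) := by push_cast; ring
      rw [e]
      refine (norm_add_le _ _).trans ?_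
      rw [norm_mul, Complex.norm_real, Real.norm_of_nonneg (by linarith : (0:ℝ) ≤ y - x)]
      nlinarith [norm_nonneg z]
    have n4 : ‖1 - z * (x : ℂ)‖ ≤ ‖1 - z * (y : ℂ)‖ * (1 + 2 * (y - x)) := by
      nlinarith
    have n5 : 1 + 2 * (y - x) ≤ Real.exp (2 * (((p : ℝ) ^ σ - 1) / p)) := by
      have e : ((p : ℝ) ^ σ - 1) / p = y - x := by
        rw [hyx, hx]; field_simp
      rw [e]
      have := Real.add_one_le_exp (2 * (y - x))
      linarith
    have n6 : 0 < ‖1 - z * (y : ℂ)‖ := by linarith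
    rw [inv_mul_eq_div, inv_eq_one_div, div_le_div_iff₀ n6 n2, one_mul]
    calc ‖1 - z * (x : ℂ)‖ ≤ ‖1 - z * (y : ℂ)‖ * (1 + 2 * (y - x)) := n4
      _ ≤ ‖1 - z * (y : ℂ)‖ * Real.exp (2 * (((p : ℝ) ^ σ - 1) / p)) :=
          mul_le_mul_of_nonneg_left n5 n6.le
      _ = _ := by ring

/-- tail bound -/
theorem tail_le (N : ℕ) [NeZero N] (M₀ M C : ℕ) (hM₀ : 4 ≤ M₀) (hM : 8 ≤ M) :
    DP (PI M₀ M) * ∑' m : factoredNumbers (PI M₀ M), (if ((m : ℕ) : ZMod N) = 1 ∧ M ^ C < m then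
        (N.totient : ℝ) * ((m : ℕ) : ℝ)⁻¹ else 0) ≤
      Real.exp (8 - C) * ∑ ψ : DirichletCharacter ℂ N, ‖EP (PI M₀ M) (fun p => ψ (p : ZMod N))‖ := by
  set P := PI M₀ M with hPdef
  have hP : ∀ p ∈ P, p.Prime := fun p hp => PI_prime hp
  have hP4 : ∀ p ∈ P, 4 ≤ p := by
    intro p hp
    rw [hPdef, mem_PI] at hp
    omega
  have hM1 : (1 : ℝ) < M := by exact_mod_cast (by omega : 1 < M)
  have hM0 : (0 : ℝ) < M := by linarith
  have hlogM : 0 < Real.log M := Real.log_pos hM1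
  have hlog2 : 2 ≤ Real.log M := by
    have h8 : (8 : ℝ) ≤ M := by exact_mod_cast hM
    have h1 : Real.log 8 ≤ Real.log M := Real.log_le_log (by norm_num) h8
    have h2 : Real.log 8 = 3 * Real.log 2 := by
      rw [show (8 : ℝ) = 2 ^ 3 by norm_num, Real.log_pow]; norm_num
    have h3 := Real.log_two_gt_d9
    linarith
  set σ : ℝ := 1 / Real.log M with hσ
  have hσ0 : 0 ≤ σ := by positivity
  have hσ2 : σ ≤ 1 / 2 := by
    rw [hσ]
    exact one_div_le_one_div_of_le (by norm_num) hlog2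
  have h1 := rankin_sum_le N P hP hP4 σ hσ0 hσ2
  have hD := DP_pos P hP
  have hψ0 : 0 ≤ ∑ ψ : DirichletCharacter ℂ N, ‖EP P (fun p => ψ (p : ZMod N))‖ :=
    Finset.sum_nonneg fun _ _ => norm_nonneg _
  -- the exponent
  have h2 : 2 * ∑ p ∈ P, ((p : ℝ) ^ σ - 1) / p ≤ 8 := by
    have h3 := sum_rankin_le M (by omega)
    have h4 : ∑ p ∈ P, ((p : ℝ) ^ σ - 1) / p ≤ ∑ p ∈ M.primesLE, ((p : ℝ) ^ σ - 1) / p := by
      apply Finset.sum_le_sum_of_subset_of_nonneg
      · intro p hp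
        rw [hPdef, mem_PI] at hp
        rw [Nat.mem_primesLE]
        exact ⟨hp.1.2, hp.2⟩
      · intro p hp _
        have hpp := Nat.prime_of_mem_primesLE hp
        have hp1 : (1 : ℝ) ≤ p := by exact_mod_cast hpp.one_lt.le
        have : 1 ≤ (p : ℝ) ^ σ := Real.one_le_rpow hp1 hσ0
        apply div_nonneg (by linarith) (by linarith)
    linarith
  -- pointwise comparison
  have hsum1 : Summable (fun m : factoredNumbers P => (if ((m : ℕ) : ZMod N) = 1 then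
        (N.totient : ℝ) * ((m : ℕ) : ℝ) ^ (-(1 - σ)) else 0)) := by
    apply Summable.of_nonneg_of_le _ _ ((summable_norm_factored P (1 - σ) (by linarith)).mul_left (N.totient : ℝ))
    · intro m; split_ifs <;> positivity
    · intro m
      split_ifs
      · exact le_refl _
      · positivity
  have hMC : ((M : ℝ) ^ C) ^ (-σ) = Real.exp (-C) := by
    rw [← Real.rpow_natCast, ← Real.rpow_mul hM0.le, Real.rpow_def_of_pos hM0]
    congr 1
    rw [hσ]
    field_simp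
  have hpt : ∀ m : factoredNumbers P, (if ((m : ℕ) : ZMod N) = 1 ∧ M ^ C < m then
        (N.totient : ℝ) * ((m : ℕ) : ℝ)⁻¹ else 0) ≤ Real.exp (-C) * (if ((m : ℕ) : ZMod N) = 1 then
        (N.totient : ℝ) * ((m : ℕ) : ℝ) ^ (-(1 - σ)) else 0) := by
    intro m
    by_cases h : ((m : ℕ) : ZMod N) = 1 ∧ M ^ C < m
    · rw [if_pos h, if_pos h.1]
      have hm0 : (0 : ℝ) < (m : ℕ) := by
        have := m.2.1
        exact_mod_cast Nat.pos_of_ne_zero this
      have h5 : ((m : ℕ) : ℝ)⁻¹ = ((m : ℕ) : ℝ) ^ (-σ) * ((m : ℕ) : ℝ) ^ (-(1 - σ)) := by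
        rw [← Real.rpow_add hm0, ← Real.rpow_neg_one]
        congr 1
        ring
      have h6 : ((m : ℕ) : ℝ) ^ (-σ) ≤ Real.exp (-C) := by
        rw [← hMC]
        apply Real.rpow_le_rpow_of_nonpos (by positivity) _ (by linarith)
        exact_mod_cast h.2.le
      rw [h5]
      have h7 : 0 ≤ ((m : ℕ) : ℝ) ^ (-(1 - σ)) := by positivity
      have h8 : 0 ≤ (N.totient : ℝ) := Nat.cast_nonneg _
      calc (N.totient : ℝ) * (((m : ℕ) : ℝ) ^ (-σ) * ((m : ℕ) : ℝ) ^ (-(1 - σ)))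
          = ((m : ℕ) : ℝ) ^ (-σ) * ((N.totient : ℝ) * ((m : ℕ) : ℝ) ^ (-(1 - σ))) := by ring
        _ ≤ _ := mul_le_mul_of_nonneg_right h6 (mul_nonneg h8 h7)
    · rw [if_neg h]
      apply mul_nonneg (Real.exp_pos _).le
      split_ifs <;> positivity
  have hsum2 : Summable (fun m : factoredNumbers P => (if ((m : ℕ) : ZMod N) = 1 ∧ M ^ C < m then
        (N.totient : ℝ) * ((m : ℕ) : ℝ)⁻¹ else 0)) := by
    apply Summable.of_nonneg_of_le _ hpt (hsum1.mul_left _)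
    intro m; split_ifs <;> positivity
  have h9 := hsum2.tsum_le_tsum hpt (hsum1.mul_left _)
  rw [tsum_mul_left] at h9
  calc DP P * _ ≤ DP P * (Real.exp (-C) * ∑' m : factoredNumbers P, (if ((m : ℕ) : ZMod N) = 1 then
        (N.totient : ℝ) * ((m : ℕ) : ℝ) ^ (-(1 - σ)) else 0)) := mul_le_mul_of_nonneg_left h9 hD.le
    _ = Real.exp (-C) * (DP P * ∑' m : factoredNumbers P, (if ((m : ℕ) : ZMod N) = 1 then
        (N.totient : ℝ) * ((m : ℕ) : ℝ) ^ (-(1 - σ)) else 0)) := by ring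
    _ ≤ Real.exp (-C) * (Real.exp (2 * ∑ p ∈ P, ((p : ℝ) ^ σ - 1) / p) *
        ∑ ψ : DirichletCharacter ℂ N, ‖EP P (fun p => ψ (p : ZMod N))‖) :=
        mul_le_mul_of_nonneg_left h1 (Real.exp_pos _).le
    _ ≤ Real.exp (-C) * (Real.exp 8 *
        ∑ ψ : DirichletCharacter ℂ N, ‖EP P (fun p => ψ (p : ZMod N))‖) := by
        apply mul_le_mul_of_nonneg_left _ (Real.exp_pos _).le
        apply mul_le_mul_of_nonneg_right _ hψ0
        exact Real.exp_le_exp.mpr h2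
    _ = _ := by
        rw [← mul_assoc, ← Real.exp_add]
        congr 2
        ring

end Pool.Agent.Helper89
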