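import Mathlib

/-!
Number of fixed-point-free involutions commuting with a given permutation.
-/

namespace Pool.Agent.Helper89.FixBound

open Finset Equiv Equiv.Perm
open scoped Classical Nat

variable {X : Type*} [Fintype X] [DecidableEq X]

/-- involutions that are fixed-point-free on `A`, the identity outside `A`, and commute with `r` -/
noncomputable def MM (r : Perm X) (A : Finset X) : Finset (Perm X) :=
  univ.filter fun M => M * M = 1 ∧ (∀ x ∈ A, M x ≠ x) ∧ (∀ x, x ∉ A → M x = x) ∧ M * r = r * M

lemma mem_MM {r : Perm X} {A : Finset X} {M : Perm X} : M ∈ MM r A ↔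
    M * M = 1 ∧ (∀ x ∈ A, M x ≠ x) ∧ (∀ x, x ∉ A → M x = x) ∧ M * r = r * M := by
  simp [MM]

lemma MM_invol {r : Perm X} {A : Finset X} {M : Perm X} (h : M ∈ MM r A) (x : X) :
    M (M x) = x := by
  have := (mem_MM.1 h).1
  exact congrArg (fun f : Perm X => f x) this

lemma MM_comm {r : Perm X} {A : Finset X} {M : Perm X} (h : M ∈ MM r A) (x : X) :
    M (r x) = r (M x) := by
  have := (mem_MM.1 h).2.2.2
  exact congrArg (fun f : Perm X => f x) this

lemma MM_pow {r : Perm X} {A : Finset X} {M : Perm X} (h : M ∈ MM r A) (k : ℕ) (x : X) :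
    M ((r ^ k) x) = (r ^ k) (M x) := by
  induction k with
  | zero => simp
  | succ k ih => rw [pow_succ', Perm.mul_apply, MM_comm h, ih, Perm.mul_apply]

lemma MM_mem_iff {r : Perm X} {A : Finset X} {M : Perm X} (h : M ∈ MM r A) (x : X) :
    M x ∈ A ↔ x ∈ A := by
  obtain ⟨_, h2, h3, _⟩ := mem_MM.1 h
  constructor
  · intro hx
    by_contra hxA
    rw [h3 x hxA] at hx
    exact hxA hx
  · intro hx
    by_contra hxA
    have := h3 _ hxA
    rw [MM_invol h] at this
    exact h2 x hx this.symm

/-- restriction of an involution to the complement of an invariant set -/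
noncomputable def cutOff (M : Perm X) (D : Finset X) : Perm X :=
  if h : (∀ x, M (M x) = x) ∧ ∀ x, M x ∈ D ↔ x ∈ D then
    Function.Involutive.toPerm (fun x => if x ∈ D then x else M x) (by
      intro x
      by_cases hx : x ∈ D
      · simp [hx]
      · have : M x ∉ D := fun h' => hx ((h.2 x).1 h')
        simp [hx, this, h.1])
  else 1

lemma cutOff_apply {M : Perm X} {D : Finset X} (h1 : ∀ x, M (M x) = x)
    (h2 : ∀ x, M x ∈ D ↔ x ∈ D) (x : X) : cutOff M D x = if x ∈ D then x else M x := by
  unfold cutOff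
  rw [dif_pos ⟨h1, h2⟩]
  rfl

lemma cutOff_mem {r : Perm X} {A D : Finset X} {M : Perm X} (h : M ∈ MM r A)
    (hD : ∀ x, M x ∈ D ↔ x ∈ D) (hr : ∀ x, r x ∈ D ↔ x ∈ D) :
    cutOff M D ∈ MM r (A \ D) := by
  obtain ⟨h1, h2, h3, h4⟩ := mem_MM.1 h
  have hi := MM_invol h
  rw [mem_MM]
  refine ⟨?_, ?_, ?_, ?_⟩
  · ext x
    rw [Perm.mul_apply, cutOff_apply hi hD, cutOff_apply hi hD]
    by_cases hx : x ∈ D
    · simp [hx]
    · have : M x ∉ D := fun h' => hx ((hD x).1 h')
      simp [hx, this, hi]
  · intro x hx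
    rw [mem_sdiff] at hx
    rw [cutOff_apply hi hD, if_neg hx.2]
    exact h2 x hx.1
  · intro x hx
    rw [cutOff_apply hi hD]
    by_cases hxD : x ∈ D
    · rw [if_pos hxD]
    · rw [if_neg hxD]
      apply h3
      intro hA
      exact hx (mem_sdiff.2 ⟨hA, hxD⟩)
  · ext x
    rw [Perm.mul_apply, Perm.mul_apply, cutOff_apply hi hD, cutOff_apply hi hD]
    by_cases hx : x ∈ D
    · rw [if_pos ((hr x).2 hx), if_pos hx]
    · rw [if_neg (fun h' => hx ((hr x).1 h')), if_neg hx, MM_comm h]

/-- Base case: no constraint from `r`. -/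
lemma card_MM_base (r : Perm X) : ∀ (n : ℕ) (A : Finset X), A.card = n →
    (MM r A).card ≤ (n - 1)‼ := by
  suffices H : ∀ (n : ℕ) (A : Finset X), A.card = n → (MM (1 : Perm X) A).card ≤ (n - 1)‼ by
    intro n A hA
    refine le_trans (Finset.card_le_card ?_) (H n A hA)
    intro M hM
    obtain ⟨h1, h2, h3, _⟩ := mem_MM.1 hM
    exact mem_MM.2 ⟨h1, h2, h3, by simp⟩
  intro n
  induction n using Nat.strong_induction_on with
  | _ n ih =>
  intro A hA
  rcases A.eq_empty_or_nonempty with rfl | ⟨p, hp⟩
  · have h0 : n = 0 := by simpa using hA.symm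
    subst h0
    have : MM (1 : Perm X) ∅ ⊆ {1} := by
      intro M hM
      rw [Finset.mem_singleton]
      ext x
      rw [(mem_MM.1 hM).2.2.1 x (by simp)]
      rfl
    simpa using Finset.card_le_card this
  · have hn : 1 ≤ n := by rw [← hA]; exact Finset.card_pos.2 ⟨p, hp⟩
    -- classes according to the image of `p`
    have hcover : MM (1 : Perm X) A ⊆ (A.erase p).biUnion
        (fun q => (MM (1 : Perm X) A).filter (fun M => M p = q)) := by
      intro M hM
      rw [mem_biUnion]
      refine ⟨M p, ?_, by simp [hM]⟩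
      rw [mem_erase]
      exact ⟨(mem_MM.1 hM).2.1 p hp, (MM_mem_iff hM p).2 hp⟩
    have hclass : ∀ q ∈ A.erase p, ((MM (1 : Perm X) A).filter (fun M => M p = q)).card ≤
        (n - 3)‼ := by
      intro q hq
      rw [mem_erase] at hq
      have hcard : (A \ {p, q}).card = n - 2 := by
        rw [Finset.card_sdiff_of_subset]
        · rw [hA, Finset.card_pair hq.1.symm]
        · intro z hz
          simp only [mem_insert, mem_singleton] at hz
          rcases hz with rfl | rfl
          · exact hp
          · exact hq.2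
      have hn2 : 2 ≤ n := by
        rw [← hA, ← Finset.card_pair hq.1.symm]
        apply Finset.card_le_card
        intro z hz
        simp only [mem_insert, mem_singleton] at hz
        rcases hz with rfl | rfl
        · exact hp
        · exact hq.2
      have hle := ih (n - 2) (by omega) (A \ {p, q}) hcard
      have h3 : n - 2 - 1 = n - 3 := by omega
      rw [h3] at hle
      refine le_trans ?_ hle
      have hinv : ∀ M ∈ (MM (1 : Perm X) A).filter (fun M => M p = q),
          ∀ x, M x ∈ ({p, q} : Finset X) ↔ x ∈ ({p, q} : Finset X) := by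
        intro M hM x
        rw [mem_filter] at hM
        have e1 : M p = q := hM.2
        have e2 : M q = p := by rw [← e1, MM_invol hM.1]
        simp only [mem_insert, mem_singleton]
        constructor
        · rintro (h | h)
          · right
            rw [← e1, ← h, MM_invol hM.1]
          · left
            rw [← e2, ← h, MM_invol hM.1]
        · rintro (rfl | rfl)
          · exact Or.inr e1
          · exact Or.inl e2
      apply Finset.card_le_card_of_injOn (fun M => cutOff M {p, q})
      · intro M hM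
        have hM' : M ∈ (MM (1 : Perm X) A).filter (fun M => M p = q) := hM
        exact cutOff_mem (mem_filter.1 hM').1 (hinv M hM') (fun x => Iff.rfl)
      · intro M hM N hN hMN
        have hM' : M ∈ (MM (1 : Perm X) A).filter (fun M => M p = q) := hM
        have hN' : N ∈ (MM (1 : Perm X) A).filter (fun M => M p = q) := hN
        ext x
        by_cases hx : x ∈ ({p, q} : Finset X)
        · simp only [mem_insert, mem_singleton] at hx
          have e1 : M p = q := (mem_filter.1 hM').2
          have e2 : N p = q := (mem_filter.1 hN').2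
          rcases hx with rfl | rfl
          · rw [e1, e2]
          · have e3 : M x = p := by rw [← e1, MM_invol (mem_filter.1 hM').1]
            have e4 : N x = p := by rw [← e2, MM_invol (mem_filter.1 hN').1]
            rw [e3, e4]
        · have := congrArg (fun f : Perm X => f x) hMN
          simp only at this
          rw [cutOff_apply (MM_invol (mem_filter.1 hM').1) (hinv M hM'),
            cutOff_apply (MM_invol (mem_filter.1 hN').1) (hinv N hN'), if_neg hx, if_neg hx] at this
          exact this
    calc (MM (1 : Perm X) A).card ≤ _ := Finset.card_le_card hcover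
      _ ≤ ∑ q ∈ A.erase p, ((MM (1 : Perm X) A).filter (fun M => M p = q)).card :=
          Finset.card_biUnion_le
      _ ≤ ∑ _q ∈ A.erase p, (n - 3)‼ := Finset.sum_le_sum hclass
      _ = (n - 1) * (n - 3)‼ := by
          rw [Finset.sum_const, Finset.card_erase_of_mem hp, hA, smul_eq_mul]
      _ ≤ (n - 1)‼ := by
          rcases Nat.lt_or_ge n 3 with h | h
          · interval_cases n
            · simp
            · simp
          · obtain ⟨m, rfl⟩ : ∃ m, n = m + 3 := ⟨n - 3, by omega⟩
            have : m + 3 - 1 = m + 2 := by omega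
            rw [this, Nat.add_sub_cancel, Nat.doubleFactorial_add_two]

/-! ### Cycles -/

/-- the cycle of `p` -/
noncomputable def Cyc (r : Perm X) (p : X) : Finset X := univ.filter fun x => r.SameCycle p x

lemma mem_Cyc {r : Perm X} {p x : X} : x ∈ Cyc r p ↔ r.SameCycle p x := by simp [Cyc]

lemma apply_mem_Cyc (r : Perm X) (p x : X) : r x ∈ Cyc r p ↔ x ∈ Cyc r p := by
  rw [mem_Cyc, mem_Cyc, sameCycle_apply_right]

lemma MM_sameCycle {r : Perm X} {A : Finset X} {M : Perm X} (h : M ∈ MM r A) {x y : X}
    (hxy : r.SameCycle x y) : r.SameCycle (M x) (M y) := by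
  obtain ⟨k, hk⟩ := hxy
  refine ⟨k, ?_⟩
  have hc : Commute M r := (mem_MM.1 h).2.2.2
  have h1 : M * r ^ k = r ^ k * M := hc.zpow_right k
  have h2 := congrArg (fun f : Perm X => f x) h1
  simp only [Perm.mul_apply] at h2
  rw [← h2, hk]

lemma MM_cyc_inv {r : Perm X} {A : Finset X} {M : Perm X} (h : M ∈ MM r A) (p : X) (x : X) :
    M x ∈ Cyc r p ∪ Cyc r (M p) ↔ x ∈ Cyc r p ∪ Cyc r (M p) := by
  have key : ∀ y, y ∈ Cyc r p ∪ Cyc r (M p) → M y ∈ Cyc r p ∪ Cyc r (M p) := by
    intro y hy
    rw [mem_union, mem_Cyc, mem_Cyc] at hy ⊢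
    rcases hy with hy | hy
    · exact Or.inr (MM_sameCycle h hy)
    · left
      have := MM_sameCycle h hy
      rwa [MM_invol h] at this
  constructor
  · intro hx
    have := key _ hx
    rwa [MM_invol h] at this
  · exact key x

/-- two commuting involutions agree on the cycles of `p` and of `M p` -/
lemma MM_agree {r : Perm X} {A : Finset X} {M N : Perm X} (hM : M ∈ MM r A) (hN : N ∈ MM r A)
    {p : X} (hp : M p = N p) {x : X} (hx : x ∈ Cyc r p ∪ Cyc r (M p)) : M x = N x := by
  have h1 : ∀ y, r.SameCycle p y → M y = N y := by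
    intro y hy
    obtain ⟨k, hk⟩ := hy.exists_nat_pow_eq
    rw [← hk, MM_pow hM, MM_pow hN, hp]
  rw [mem_union, mem_Cyc, mem_Cyc] at hx
  rcases hx with hx | hx
  · exact h1 x hx
  · have h2 : r.SameCycle p (M x) := by
      have := MM_sameCycle hM hx
      rwa [MM_invol hM] at this
    have h3 := h1 _ h2
    rw [MM_invol hM] at h3
    have h4 := congrArg N h3
    rw [MM_invol hN] at h4
    exact h4.symm

/-- the partner inside the same cycle is forced -/
lemma MM_antipode {r : Perm X} {A : Finset X} {M N : Perm X} (hM : M ∈ MM r A) (hN : N ∈ MM r A)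
    {p : X} (hpA : p ∈ A) (h1 : r.SameCycle p (M p)) (h2 : r.SameCycle p (N p)) : M p = N p := by
  obtain ⟨k, hk⟩ := h1.exists_nat_pow_eq
  obtain ⟨l, hl⟩ := h2.exists_nat_pow_eq
  have hk2 : (r ^ (2 * k)) p = p := by
    rw [two_mul, pow_add, Perm.mul_apply, hk, ← MM_pow hM, hk, MM_invol hM]
  have hl2 : (r ^ (2 * l)) p = p := by
    rw [two_mul, pow_add, Perm.mul_apply, hl, ← MM_pow hN, hl, MM_invol hN]
  have hk1 : (r ^ k) p ≠ p := by rw [hk]; exact (mem_MM.1 hM).2.1 p hpA
  have hl1 : (r ^ l) p ≠ p := by rw [hl]; exact (mem_MM.1 hN).2.1 p hpA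
  have per : ∀ n : ℕ, (r ^ n) p = p ↔ Function.minimalPeriod r p ∣ n := by
    intro n
    rw [← Function.isPeriodicPt_iff_minimalPeriod_dvd, Function.IsPeriodicPt, Function.IsFixedPt,
      ← Perm.coe_pow]
  rw [per] at hk2 hl2
  rw [ne_eq, per] at hk1 hl1
  obtain ⟨m, hm⟩ := hk2
  obtain ⟨m', hm'⟩ := hl2
  set L := Function.minimalPeriod r p with hL
  have hmodd : m % 2 = 1 := by
    by_contra h
    have : ∃ c, m = 2 * c := ⟨m / 2, by omega⟩
    obtain ⟨c, rfl⟩ := this
    exact hk1 ⟨c, by nlinarith⟩
  have hmodd' : m' % 2 = 1 := by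
    by_contra h
    have : ∃ c, m' = 2 * c := ⟨m' / 2, by omega⟩
    obtain ⟨c, rfl⟩ := this
    exact hl1 ⟨c, by nlinarith⟩
  obtain ⟨c, hc⟩ : ∃ c, m = 2 * c + 1 := ⟨m / 2, by omega⟩
  obtain ⟨c', hc'⟩ : ∃ c, m' = 2 * c + 1 := ⟨m' / 2, by omega⟩
  -- `k + L c' = l + L c`
  have hkl : k + L * c' = l + L * c := by
    subst hc
    subst hc'
    nlinarith
  have e1 : (r ^ (k + L * c')) p = (r ^ k) p := by
    rw [pow_add, Perm.mul_apply]
    rw [(per (L * c')).2 (Dvd.intro _ rfl)]
  have e2 : (r ^ (l + L * c)) p = (r ^ l) p := by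
    rw [pow_add, Perm.mul_apply]
    rw [(per (L * c)).2 (Dvd.intro _ rfl)]
  rw [← hk, ← hl, ← e1, ← e2, hkl]

/-- number of cycles inside `A` -/
noncomputable def oo (r : Perm X) (A : Finset X) : ℕ :=
  (r.cycleFactorsFinset.filter (fun c => c.support ⊆ A)).card

lemma Cyc_eq_support {r : Perm X} {p : X} (hp : p ∈ r.support) :
    (r.cycleOf p).support = Cyc r p := by
  ext x
  rw [mem_support_cycleOf_iff, mem_Cyc]
  exact ⟨fun h => h.1, fun h => ⟨h, hp⟩⟩

lemma Cyc_subset {r : Perm X} {A : Finset X} (hA : ∀ x, r x ∈ A ↔ x ∈ A) {p : X} (hp : p ∈ A) :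
    Cyc r p ⊆ A := by
  have hpow : ∀ (k : ℕ) x, x ∈ A → (r ^ k) x ∈ A := by
    intro k
    induction k with
    | zero => intro x hx; simpa using hx
    | succ k ih =>
      intro x hx
      rw [pow_succ', Perm.mul_apply]
      exact (hA _).2 (ih x hx)
  intro x hx
  rw [mem_Cyc] at hx
  obtain ⟨k, hk⟩ := hx.exists_nat_pow_eq
  rw [← hk]
  exact hpow k p hp

lemma Cyc_subset_support {r : Perm X} {p : X} (hp : p ∈ r.support) : Cyc r p ⊆ r.support := by
  apply Cyc_subset _ hp
  intro x
  exact apply_mem_support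

lemma oo_sdiff {r : Perm X} {A : Finset X} (hA : ∀ x, r x ∈ A ↔ x ∈ A) {p : X} (hp : p ∈ A)
    (hpr : p ∈ r.support) : oo r (A \ Cyc r p) + 1 = oo r A := by
  have hmem : r.cycleOf p ∈ r.cycleFactorsFinset.filter (fun c => c.support ⊆ A) := by
    rw [mem_filter, cycleOf_mem_cycleFactorsFinset_iff, Cyc_eq_support hpr]
    exact ⟨hpr, Cyc_subset hA hp⟩
  have heq : r.cycleFactorsFinset.filter (fun c => c.support ⊆ A \ Cyc r p) =
      (r.cycleFactorsFinset.filter (fun c => c.support ⊆ A)).erase (r.cycleOf p) := by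
    ext c
    rw [mem_filter, mem_erase, mem_filter]
    constructor
    · rintro ⟨hc, hsub⟩
      refine ⟨?_, hc, fun x hx => (mem_sdiff.1 (hsub hx)).1⟩
      rintro rfl
      have : p ∈ (r.cycleOf p).support := by
        rw [Cyc_eq_support hpr, mem_Cyc]
      have h2 := hsub this
      rw [mem_sdiff, mem_Cyc] at h2
      exact h2.2 (SameCycle.refl _ _)
    · rintro ⟨hne, hc, hsub⟩
      refine ⟨hc, fun x hx => mem_sdiff.2 ⟨hsub hx, ?_⟩⟩
      have hd := cycleFactorsFinset_pairwise_disjoint r hc (mem_filter.1 hmem).1 hne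
      rw [disjoint_iff_disjoint_support, Finset.disjoint_left] at hd
      rw [← Cyc_eq_support hpr]
      exact hd hx
  unfold oo
  rw [heq, Finset.card_erase_of_mem hmem]
  have : 0 < (r.cycleFactorsFinset.filter (fun c => c.support ⊆ A)).card :=
    Finset.card_pos.2 ⟨_, hmem⟩
  omega

lemma oo_eq_zero {r : Perm X} {A : Finset X} (h : ∀ x ∈ A, x ∉ r.support) : oo r A = 0 := by
  unfold oo
  rw [Finset.card_eq_zero, Finset.filter_eq_empty_iff]
  intro c hc hsub
  have hne : c.support.Nonempty := by
    rw [Finset.nonempty_iff_ne_empty, ne_eq, Perm.support_eq_empty_iff]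
    rintro rfl
    exact (mem_cycleFactorsFinset_iff.1 hc).1.ne_one rfl
  obtain ⟨x, hx⟩ := hne
  exact h x (hsub hx) (mem_cycleFactorsFinset_support_le hc hx)

lemma sdiff_support {r : Perm X} {A D : Finset X} (hD : D ⊆ r.support) :
    (A \ D) \ r.support = A \ r.support := by
  ext x
  simp only [mem_sdiff]
  constructor
  · rintro ⟨⟨h1, _⟩, h3⟩
    exact ⟨h1, h3⟩
  · rintro ⟨h1, h3⟩
    exact ⟨⟨h1, fun h => h3 (hD h)⟩, h3⟩

lemma sdiff_inv {r : Perm X} {A D : Finset X} (hA : ∀ x, r x ∈ A ↔ x ∈ A)
    (hD : ∀ x, r x ∈ D ↔ x ∈ D) (x : X) : r x ∈ A \ D ↔ x ∈ A \ D := by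
  rw [mem_sdiff, mem_sdiff, hA, hD]

/-- The main bound, for invariant sets. -/
lemma card_MM_le (r : Perm X) (T : ℕ) (hT : r.support.card ≤ T) :
    ∀ (n : ℕ) (A : Finset X), A.card = n → (∀ x, r x ∈ A ↔ x ∈ A) →
    ((MM r A).card : ℝ) ≤ (2 * Real.sqrt T) ^ oo r A * (((A \ r.support).card - 1)‼ : ℝ) := by
  intro n
  induction n using Nat.strong_induction_on with
  | _ n ih =>
  intro A hn hA
  by_cases hex : ∃ p ∈ A, p ∈ r.support
  · obtain ⟨p, hpA, hpr⟩ := hex
    have hT1 : (1 : ℝ) ≤ T := by
      have : 1 ≤ r.support.card := Finset.card_pos.2 ⟨p, hpr⟩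
      exact_mod_cast this.trans hT
    set C := Cyc r p with hC
    have hpC : p ∈ C := by rw [hC, mem_Cyc]
    have hCA : C ⊆ A := Cyc_subset hA hpA
    have hCsup : C ⊆ r.support := Cyc_subset_support hpr
    set D0 : ℝ := (((A \ r.support).card - 1)‼ : ℝ) with hD0
    have hD0pos : 0 ≤ D0 := by rw [hD0]; positivity
    set B : ℝ := 2 * Real.sqrt T with hB
    have hsq : Real.sqrt T * Real.sqrt T = T := Real.mul_self_sqrt (by positivity)
    have hsq1 : 1 ≤ Real.sqrt T := by
      rw [← Real.sqrt_one]
      exact Real.sqrt_le_sqrt hT1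
    have hB1 : 1 ≤ B := by rw [hB]; linarith
    have hB2 : B + T ≤ B ^ 2 := by
      rw [hB]
      nlinarith
    have ho := oo_sdiff hA hpA hpr
    rw [← hC] at ho
    -- first part: `M p` in the cycle of `p`
    have hinvC : ∀ x, r x ∈ C ↔ x ∈ C := fun x => by rw [hC]; exact apply_mem_Cyc r p x
    have hpart1 : (((MM r A).filter (fun M => M p ∈ C)).card : ℝ) ≤ B ^ oo r (A \ C) * D0 := by
      have hlt : (A \ C).card < n := by
        rw [← hn]
        apply Finset.card_lt_card
        rw [Finset.ssubset_iff_of_subset Finset.sdiff_subset]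
        exact ⟨p, hpA, fun h => (mem_sdiff.1 h).2 hpC⟩
      have h1 := ih _ hlt (A \ C) rfl (sdiff_inv hA hinvC)
      rw [sdiff_support hCsup] at h1
      refine le_trans ?_ h1
      have hcc : ∀ M ∈ (MM r A).filter (fun M => M p ∈ C), Cyc r p ∪ Cyc r (M p) = C := by
        intro M hM
        have h2 := (mem_filter.1 hM).2
        rw [hC, mem_Cyc] at h2
        ext x
        rw [mem_union, mem_Cyc, mem_Cyc]
        constructor
        · rintro (h | h)
          · exact h
          · exact h2.trans h
        · intro h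
          exact Or.inl h
      exact_mod_cast Finset.card_le_card_of_injOn (fun M => cutOff M C)
        (by
          intro M hM
          have hM' : M ∈ (MM r A).filter (fun M => M p ∈ C) := hM
          apply cutOff_mem (mem_filter.1 hM').1 _ hinvC
          intro x
          rw [← hcc M hM']
          exact MM_cyc_inv (mem_filter.1 hM').1 p x)
        (by
          intro M hM N hN hMN
          have hM' : M ∈ (MM r A).filter (fun M => M p ∈ C) := hM
          have hN' : N ∈ (MM r A).filter (fun M => M p ∈ C) := hN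
          have e1 : M p = N p := by
            apply MM_antipode (mem_filter.1 hM').1 (mem_filter.1 hN').1 hpA
            · have := (mem_filter.1 hM').2
              rwa [hC, mem_Cyc] at this
            · have := (mem_filter.1 hN').2
              rwa [hC, mem_Cyc] at this
          ext x
          by_cases hx : x ∈ C
          · rw [← hcc M hM'] at hx
            exact MM_agree (mem_filter.1 hM').1 (mem_filter.1 hN').1 e1 hx
          · have := congrArg (fun f : Perm X => f x) hMN
            simp only at this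
            have i1 : ∀ x, M x ∈ C ↔ x ∈ C := fun x => by
              rw [← hcc M hM']; exact MM_cyc_inv (mem_filter.1 hM').1 p x
            have i2 : ∀ x, N x ∈ C ↔ x ∈ C := fun x => by
              rw [← hcc N hN']; exact MM_cyc_inv (mem_filter.1 hN').1 p x
            rw [cutOff_apply (MM_invol (mem_filter.1 hM').1) i1,
              cutOff_apply (MM_invol (mem_filter.1 hN').1) i2, if_neg hx, if_neg hx] at this
            exact this)
    -- second part: `M p` in another cycle
    set Q : Finset X := (A ∩ r.support) \ C with hQ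
    have hpart2 : ∀ q ∈ Q, (((MM r A).filter (fun M => M p = q)).card : ℝ) ≤
        B ^ oo r ((A \ C) \ Cyc r q) * D0 := by
      intro q hq
      rw [hQ, mem_sdiff, mem_inter] at hq
      have hqAC : q ∈ A \ C := mem_sdiff.2 ⟨hq.1.1, hq.2⟩
      have hqsup : Cyc r q ⊆ r.support := Cyc_subset_support hq.1.2
      have hinvq : ∀ x, r x ∈ Cyc r q ↔ x ∈ Cyc r q := apply_mem_Cyc r q
      have hlt : ((A \ C) \ Cyc r q).card < n := by
        rw [← hn]
        apply Finset.card_lt_card
        rw [Finset.ssubset_iff_of_subset (Finset.sdiff_subset.trans Finset.sdiff_subset)]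
        exact ⟨p, hpA, fun h => (mem_sdiff.1 (mem_sdiff.1 h).1).2 hpC⟩
      have h1 := ih _ hlt _ rfl (sdiff_inv (sdiff_inv hA hinvC) hinvq)
      rw [sdiff_support hqsup, sdiff_support hCsup] at h1
      refine le_trans ?_ h1
      have hsd : (A \ C) \ Cyc r q = A \ (C ∪ Cyc r q) := by
        rw [Finset.sdiff_sdiff_left']
        ext x
        simp only [mem_inter, mem_sdiff, mem_union, not_or]
        tauto
      rw [hsd]
      have hinvu : ∀ x, r x ∈ C ∪ Cyc r q ↔ x ∈ C ∪ Cyc r q := fun x => by
        rw [mem_union, mem_union, hinvC, hinvq]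
      exact_mod_cast Finset.card_le_card_of_injOn (fun M => cutOff M (C ∪ Cyc r q))
        (by
          intro M hM
          have hM' : M ∈ (MM r A).filter (fun M => M p = q) := hM
          apply cutOff_mem (mem_filter.1 hM').1 _ hinvu
          intro x
          rw [hC, ← (mem_filter.1 hM').2]
          exact MM_cyc_inv (mem_filter.1 hM').1 p x)
        (by
          intro M hM N hN hMN
          have hM' : M ∈ (MM r A).filter (fun M => M p = q) := hM
          have hN' : N ∈ (MM r A).filter (fun M => M p = q) := hN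
          have e0 : M p = q := (mem_filter.1 hM').2
          have e1 : M p = N p := by rw [e0, (mem_filter.1 hN').2]
          ext x
          by_cases hx : x ∈ C ∪ Cyc r q
          · rw [hC, ← e0] at hx
            exact MM_agree (mem_filter.1 hM').1 (mem_filter.1 hN').1 e1 hx
          · have := congrArg (fun f : Perm X => f x) hMN
            simp only at this
            have i1 : ∀ x, M x ∈ C ∪ Cyc r q ↔ x ∈ C ∪ Cyc r q := fun x => by
              rw [hC, ← e0]; exact MM_cyc_inv (mem_filter.1 hM').1 p x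
            have i2 : ∀ x, N x ∈ C ∪ Cyc r q ↔ x ∈ C ∪ Cyc r q := fun x => by
              rw [hC, ← (mem_filter.1 hN').2]; exact MM_cyc_inv (mem_filter.1 hN').1 p x
            rw [cutOff_apply (MM_invol (mem_filter.1 hM').1) i1,
              cutOff_apply (MM_invol (mem_filter.1 hN').1) i2, if_neg hx, if_neg hx] at this
            exact this)
    -- put together
    have hcover : MM r A ⊆ (MM r A).filter (fun M => M p ∈ C) ∪
        Q.biUnion (fun q => (MM r A).filter (fun M => M p = q)) := by
      intro M hM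
      rw [mem_union]
      by_cases h : M p ∈ C
      · exact Or.inl (mem_filter.2 ⟨hM, h⟩)
      · right
        rw [mem_biUnion]
        refine ⟨M p, ?_, mem_filter.2 ⟨hM, rfl⟩⟩
        rw [hQ, mem_sdiff, mem_inter]
        refine ⟨⟨(MM_mem_iff hM p).2 hpA, ?_⟩, h⟩
        rw [Perm.mem_support]
        intro h'
        rw [← MM_comm hM] at h'
        exact (Perm.mem_support.1 hpr) (M.injective h')
    have hsum : ((MM r A).card : ℝ) ≤ ((MM r A).filter (fun M => M p ∈ C)).card +
        ∑ q ∈ Q, (((MM r A).filter (fun M => M p = q)).card : ℝ) := by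
      have h1 := Finset.card_le_card hcover
      have h2 := h1.trans (Finset.card_union_le _ _)
      have h3 := h2.trans (Nat.add_le_add_left (Finset.card_biUnion_le) _)
      exact_mod_cast h3
    have hsum2 : ((MM r A).card : ℝ) ≤ B ^ oo r (A \ C) * D0 +
        ∑ q ∈ Q, B ^ oo r ((A \ C) \ Cyc r q) * D0 :=
      hsum.trans (add_le_add hpart1 (Finset.sum_le_sum hpart2))
    refine hsum2.trans ?_
    rcases Q.eq_empty_or_nonempty with hQe | ⟨q0, hq0⟩
    · rw [hQe, Finset.sum_empty, add_zero, ← ho]
      apply mul_le_mul_of_nonneg_right _ hD0pos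
      exact pow_le_pow_right₀ hB1 (Nat.le_succ _)
    · have hoq : ∀ q ∈ Q, oo r ((A \ C) \ Cyc r q) + 1 = oo r (A \ C) := by
        intro q hq
        rw [hQ, mem_sdiff, mem_inter] at hq
        exact oo_sdiff (sdiff_inv hA hinvC) (mem_sdiff.2 ⟨hq.1.1, hq.2⟩) hq.1.2
      obtain ⟨m, hm⟩ : ∃ m, oo r (A \ C) = m + 1 := ⟨_, (hoq q0 hq0).symm⟩
      have hm2 : oo r A = m + 2 := by omega
      have hQT : (Q.card : ℝ) ≤ T := by
        have : Q.card ≤ r.support.card := by
          apply Finset.card_le_card
          intro x hx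
          rw [hQ, mem_sdiff, mem_inter] at hx
          exact hx.1.2
        exact_mod_cast this.trans hT
      calc B ^ oo r (A \ C) * D0 + ∑ q ∈ Q, B ^ oo r ((A \ C) \ Cyc r q) * D0
          = B ^ (m + 1) * D0 + ∑ q ∈ Q, B ^ m * D0 := by
            rw [hm]
            congr 1
            apply Finset.sum_congr rfl
            intro q hq
            have := hoq q hq
            have h4 : oo r ((A \ C) \ Cyc r q) = m := by omega
            rw [h4]
        _ = B ^ m * D0 * (B + Q.card) := by
            rw [Finset.sum_const, nsmul_eq_mul]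
            ring
        _ ≤ B ^ m * D0 * B ^ 2 := by
            apply mul_le_mul_of_nonneg_left _ (by positivity)
            linarith
        _ = B ^ oo r A * D0 := by rw [hm2]; ring
  · push Not at hex
    rw [oo_eq_zero hex, pow_zero, one_mul]
    have hs : A \ r.support = A := by
      rw [Finset.sdiff_eq_self_iff_disjoint, Finset.disjoint_left]
      exact hex
    rw [hs]
    exact_mod_cast card_MM_base r A.card A rfl

/-- The number of fixed-point-free involutions commuting with `r`. -/
theorem fix_bound (r : Perm X) (T : ℕ) (hT : r.support.card ≤ T) :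
    (((univ : Finset (Perm X)).filter
      (fun M => M * M = 1 ∧ (∀ x, M x ≠ x) ∧ M * r = r * M)).card : ℝ) ≤
      (2 * Real.sqrt T) ^ r.cycleFactorsFinset.card *
        ((Fintype.card X - r.support.card - 1)‼ : ℝ) := by
  have h := card_MM_le r T hT _ univ rfl (by simp)
  have h1 : oo r univ = r.cycleFactorsFinset.card := by
    unfold oo
    congr 1
    rw [Finset.filter_eq_self]
    intro c _
    exact Finset.subset_univ _
  have h2 : (univ \ r.support : Finset X).card = Fintype.card X - r.support.card := by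
    rw [Finset.card_sdiff_of_subset (Finset.subset_univ _), Finset.card_univ]
  rw [h1, h2] at h
  refine le_trans ?_ h
  have : ((univ : Finset (Perm X)).filter
      (fun M => M * M = 1 ∧ (∀ x, M x ≠ x) ∧ M * r = r * M)) ⊆ MM r univ := by
    intro M hM
    rw [mem_filter] at hM
    rw [mem_MM]
    exact ⟨hM.2.1, fun x _ => hM.2.2.1 x, fun x hx => absurd (mem_univ x) hx, hM.2.2.2⟩
  exact_mod_cast Finset.card_le_card this

end Pool.Agent.Helper89.FixBound
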