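import Pool.Agent.Helper89.F

set_option autoImplicit false

namespace Pool.Agent.Helper89

open Complex Nat Filter

lemma totient_DP (N : ℕ) [NeZero N] (M₀ M : ℕ) (hN : ∀ p : ℕ, p.Prime → (p ∣ N ↔ p ≤ M₀))
    (hMM : M₀ ≤ M) :
    (N.totient : ℝ) * DP (PI M₀ M) = N * ∏ p ∈ M.primesLE, (1 - (p : ℝ)⁻¹) := by
  have h1 : (N.totient : ℝ) = N * ∏ p ∈ N.primeFactors, (1 - (p : ℝ)⁻¹) := by
    have := Nat.totient_eq_mul_prod_factors N
    have h2 : ((N.totient : ℚ) : ℝ) = ((N * ∏ p ∈ N.primeFactors, (1 - (p : ℚ)⁻¹) : ℚ) : ℝ) := by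
      rw [this]
    push_cast at h2
    exact h2
  rw [h1, mul_assoc]
  congr 1
  rw [DP, ← Finset.prod_union]
  · apply Finset.prod_congr _ (fun _ _ => rfl)
    ext p
    rw [Finset.mem_union, mem_PI, Nat.mem_primesLE, Nat.mem_primeFactors_of_ne_zero (NeZero.ne N)]
    constructor
    · rintro (⟨h2, h3⟩ | ⟨⟨h2, h3⟩, h4⟩)
      · rw [hN p h2] at h3
        exact ⟨by omega, h2⟩
      · exact ⟨h3, h4⟩
    · rintro ⟨h2, h3⟩
      by_cases h4 : p ≤ M₀
      · left
        exact ⟨h3, (hN p h3).mpr h4⟩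
      · right
        exact ⟨⟨by omega, h2⟩, h3⟩
  · rw [Finset.disjoint_left]
    intro p hp hq
    rw [Nat.mem_primeFactors_of_ne_zero (NeZero.ne N)] at hp
    rw [mem_PI] at hq
    have := (hN p hp.1).mp hp.2
    omega

/-- the finite sum over `n ≡ 1 mod N`, `1 < n ≤ X` is dominated. -/
lemma finite_part_le (N : ℕ) [NeZero N] (X : ℕ) (ρ : ℕ → ℝ) (hρ0 : ∀ n ≠ 0, 0 ≤ ρ n) :
    (N : ℝ) * ∑ n ∈ (Finset.Icc 2 X).filter (fun n => ((n : ℕ) : ZMod N) = 1), ρ n * (n : ℝ)⁻¹ ≤
      ∑ m ∈ Finset.Icc 1 X, (m : ℝ)⁻¹ * ρ (N * m + 1) := by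
  have hNpos : 0 < N := Nat.pos_of_ne_zero (NeZero.ne N)
  rw [Finset.mul_sum]
  -- the map n ↦ (n-1)/N
  have hdvd : ∀ n ∈ (Finset.Icc 2 X).filter (fun n => ((n : ℕ) : ZMod N) = 1), N ∣ n - 1 := by
    intro n hn
    rw [Finset.mem_filter, Finset.mem_Icc] at hn
    rw [← ZMod.natCast_eq_zero_iff, Nat.cast_sub (by omega)]
    rw [hn.2]; simp
  have hrep : ∀ n ∈ (Finset.Icc 2 X).filter (fun n => ((n : ℕ) : ZMod N) = 1),
      N * ((n - 1) / N) + 1 = n := by
    intro n hn
    rw [Nat.mul_div_cancel' (hdvd n hn)]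
    rw [Finset.mem_filter, Finset.mem_Icc] at hn
    omega
  have hpos : ∀ n ∈ (Finset.Icc 2 X).filter (fun n => ((n : ℕ) : ZMod N) = 1), 1 ≤ (n - 1) / N := by
    intro n hn
    rw [Nat.one_le_div_iff hNpos]
    have h1 := hdvd n hn
    rw [Finset.mem_filter, Finset.mem_Icc] at hn
    exact Nat.le_of_dvd (by omega) h1
  calc ∑ n ∈ (Finset.Icc 2 X).filter (fun n => ((n : ℕ) : ZMod N) = 1), (N : ℝ) * (ρ n * (n : ℝ)⁻¹)
      ≤ ∑ n ∈ (Finset.Icc 2 X).filter (fun n => ((n : ℕ) : ZMod N) = 1),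
          (((n - 1) / N : ℕ) : ℝ)⁻¹ * ρ (N * ((n - 1) / N) + 1) := by
        apply Finset.sum_le_sum
        intro n hn
        rw [hrep n hn]
        have h1 := hpos n hn
        have h2 := hrep n hn
        have hn0 : n ≠ 0 := by
          rw [Finset.mem_filter, Finset.mem_Icc] at hn
          omega
        have h3 := hρ0 n hn0
        have h4 : (0 : ℝ) < (((n - 1) / N : ℕ) : ℝ) := by exact_mod_cast h1
        have h5 : (0 : ℝ) < n := by exact_mod_cast Nat.pos_of_ne_zero hn0
        have h6 : (N : ℝ) * (((n - 1) / N : ℕ) : ℝ) ≤ n := by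
          have : N * ((n - 1) / N) ≤ n := by omega
          exact_mod_cast this
        rw [mul_comm (ρ n), ← mul_assoc]
        apply mul_le_mul_of_nonneg_right _ h3
        rw [← div_eq_mul_inv, inv_eq_one_div, div_le_div_iff₀ h5 h4, one_mul]
        exact h6
    _ = ∑ m ∈ ((Finset.Icc 2 X).filter (fun n => ((n : ℕ) : ZMod N) = 1)).image (fun n => (n - 1) / N),
          (m : ℝ)⁻¹ * ρ (N * m + 1) := by
        rw [Finset.sum_image]
        intro a ha b hb hab
        have h1 := hrep a ha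
        have h2 := hrep b hb
        simp only at hab
        rw [← h1, ← h2, hab]
    _ ≤ ∑ m ∈ Finset.Icc 1 X, (m : ℝ)⁻¹ * ρ (N * m + 1) := by
        apply Finset.sum_le_sum_of_subset_of_nonneg
        · intro m hm
          rw [Finset.mem_image] at hm
          obtain ⟨n, hn, rfl⟩ := hm
          have h1 := hpos n hn
          rw [Finset.mem_filter, Finset.mem_Icc] at hn
          rw [Finset.mem_Icc]
          refine ⟨h1, ?_⟩
          have : (n - 1) / N ≤ n - 1 := Nat.div_le_self _ _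
          omega
        · intro m _ _
          apply mul_nonneg (by positivity) (hρ0 _ (by omega))

theorem domination (N : ℕ) [NeZero N] (M₀ M C : ℕ) (hN : ∀ p : ℕ, p.Prime → (p ∣ N ↔ p ≤ M₀))
    (hM₀ : 4 ≤ M₀) (hMM : M₀ ≤ M) (hM : 8 ≤ M)
    (ρ : ℕ → ℝ) (hρ0 : ∀ n ≠ 0, 0 ≤ ρ n) (hρ1 : ∀ n ≠ 0, ρ n ≤ 1) :
    Real.log M * (EE N (PI M₀ M) ρ - N / Real.log M -
      Real.exp (8 - C) * ∑ ψ : DirichletCharacter ℂ N, ‖EP (PI M₀ M) (fun p => ψ (p : ZMod N))‖) ≤
    ∑ m ∈ Finset.Icc 1 (M ^ C), (m : ℝ)⁻¹ * ρ (N * m + 1) := by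
  set P := PI M₀ M with hPdef
  have hP : ∀ p ∈ P, p.Prime := fun p hp => PI_prime hp
  have hNpos : 0 < N := Nat.pos_of_ne_zero (NeZero.ne N)
  have hNR : (0 : ℝ) < N := by exact_mod_cast hNpos
  have hM1 : (1 : ℝ) < M := by exact_mod_cast (by omega : 1 < M)
  have hlogM : 0 < Real.log M := Real.log_pos hM1
  have hD := DP_pos P hP
  have htail := tail_le N M₀ M C hM₀ hM
  rw [← hPdef] at htail
  set Tl : ℝ := Real.exp (8 - C) * ∑ ψ : DirichletCharacter ℂ N, ‖EP P (fun p => ψ (p : ZMod N))‖ with hTl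
  set G : ℝ := ∑ m ∈ Finset.Icc 1 (M ^ C), (m : ℝ)⁻¹ * ρ (N * m + 1) with hG
  have hG0 : 0 ≤ G := by
    apply Finset.sum_nonneg
    intro m _
    apply mul_nonneg (by positivity) (hρ0 _ (by omega))
  set F : ℝ := ∑ n ∈ (Finset.Icc 2 (M ^ C)).filter (fun n => ((n : ℕ) : ZMod N) = 1), ρ n * (n : ℝ)⁻¹ with hF
  have hFG : (N : ℝ) * F ≤ G := finite_part_le N (M ^ C) ρ hρ0
  -- φ(N) D
  have hφD := totient_DP N M₀ M hN hMM
  rw [← hPdef] at hφD
  set Q : ℝ := ∏ p ∈ M.primesLE, (1 - (p : ℝ)⁻¹) with hQ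
  have hQ0 : 0 < Q := by
    apply Finset.prod_pos
    intro p hp
    have h1 : (1 : ℝ) < p := by exact_mod_cast (Nat.prime_of_mem_primesLE hp).one_lt
    have := inv_lt_one_of_one_lt₀ h1
    linarith
  have hQL : Real.log M * Q ≤ 1 := by
    have h1 := log_le_prod M (by omega)
    rw [Finset.prod_inv_distrib] at h1
    calc Real.log M * Q ≤ Q⁻¹ * Q := mul_le_mul_of_nonneg_right h1 hQ0.le
      _ = 1 := inv_mul_cancel₀ hQ0.ne'
  -- summability
  have hsumT : Summable (fun m : factoredNumbers P => (if ((m : ℕ) : ZMod N) = 1 then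
        (N.totient : ℝ) * (ρ m * ((m : ℕ) : ℝ)⁻¹) else 0)) := by
    have hb := (summable_norm_factored P 1 one_pos).mul_left (N.totient : ℝ)
    apply Summable.of_nonneg_of_le _ _ hb
    · intro m
      have := hρ0 m m.2.1
      split_ifs <;> positivity
    · intro m
      rw [Real.rpow_neg_one]
      have h0 := hρ0 m m.2.1
      have h1 := hρ1 m m.2.1
      split_ifs
      · apply mul_le_mul_of_nonneg_left _ (Nat.cast_nonneg _)
        have : 0 ≤ ((m : ℕ) : ℝ)⁻¹ := by positivity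
        nlinarith
      · positivity
  have hsumTail : Summable (fun m : factoredNumbers P => (if ((m : ℕ) : ZMod N) = 1 ∧ M ^ C < m then
        (N.totient : ℝ) * ((m : ℕ) : ℝ)⁻¹ else 0)) := by
    have hb := (summable_norm_factored P 1 one_pos).mul_left (N.totient : ℝ)
    apply Summable.of_nonneg_of_le _ _ hb
    · intro m
      split_ifs <;> positivity
    · intro m
      rw [Real.rpow_neg_one]
      split_ifs
      · exact le_refl _
      · positivity
  -- the finitely supported middle part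
  have hmid : ∑' m : factoredNumbers P, (if ((m : ℕ) : ZMod N) = 1 ∧ ¬ M ^ C < m then
        (N.totient : ℝ) * (ρ m * ((m : ℕ) : ℝ)⁻¹) else 0) ≤ N.totient + N.totient * F := by
    have hfin : (Function.support (fun m : factoredNumbers P => (if ((m : ℕ) : ZMod N) = 1 ∧ ¬ M ^ C < m then
        (N.totient : ℝ) * (ρ m * ((m : ℕ) : ℝ)⁻¹) else 0))).Finite := by
      have : (Function.support (fun m : factoredNumbers P => (if ((m : ℕ) : ZMod N) = 1 ∧ ¬ M ^ C < m then
        (N.totient : ℝ) * (ρ m * ((m : ℕ) : ℝ)⁻¹) else 0))) ⊆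
          (fun m : factoredNumbers P => (m : ℕ)) ⁻¹' (Set.Iic (M ^ C)) := by
        intro m hm
        simp only [Function.mem_support, ne_eq, ite_eq_right_iff, Classical.not_imp] at hm
        simp only [Set.mem_preimage, Set.mem_Iic]
        omega
      apply Set.Finite.subset _ this
      exact (Set.finite_Iic (M ^ C)).preimage (Subtype.val_injective.injOn)
    rw [tsum_eq_sum (s := hfin.toFinset) (by
      intro m hm
      by_contra h
      exact hm (hfin.mem_toFinset.mpr h))]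
    have hinj : Function.Injective (fun m : factoredNumbers P => (m : ℕ)) := Subtype.val_injective
    have e1 : ∑ m ∈ hfin.toFinset, (if ((m : ℕ) : ZMod N) = 1 ∧ ¬ M ^ C < m then
        (N.totient : ℝ) * (ρ m * ((m : ℕ) : ℝ)⁻¹) else 0) =
        ∑ n ∈ hfin.toFinset.map ⟨_, hinj⟩, (if ((n : ℕ) : ZMod N) = 1 ∧ ¬ M ^ C < n then
        (N.totient : ℝ) * (ρ n * ((n : ℕ) : ℝ)⁻¹) else 0) := by
      rw [Finset.sum_map]; rfl
    rw [e1]
    have e2 : ∑ n ∈ hfin.toFinset.map ⟨_, hinj⟩, (if ((n : ℕ) : ZMod N) = 1 ∧ ¬ M ^ C < n then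
        (N.totient : ℝ) * (ρ n * ((n : ℕ) : ℝ)⁻¹) else 0) ≤
        ∑ n ∈ Finset.Icc 1 (M ^ C), (if ((n : ℕ) : ZMod N) = 1 ∧ ¬ M ^ C < n then
        (N.totient : ℝ) * (ρ n * ((n : ℕ) : ℝ)⁻¹) else 0) := by
      apply Finset.sum_le_sum_of_subset_of_nonneg
      · intro n hn
        rw [Finset.mem_map] at hn
        obtain ⟨m, hm, rfl⟩ := hn
        rw [Set.Finite.mem_toFinset, Function.mem_support] at hm
        simp only [ne_eq, ite_eq_right_iff, Classical.not_imp] at hm
        rw [Finset.mem_Icc]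
        have := m.2.1
        refine ⟨Nat.pos_of_ne_zero this, ?_⟩
        have h2 := hm.1.2
        simp only [Function.Embedding.coeFn_mk]
        omega
      · intro n hn _
        rw [Finset.mem_Icc] at hn
        have := hρ0 n (by omega)
        split_ifs <;> positivity
    refine e2.trans ?_
    have hX1 : 1 ≤ M ^ C := Nat.one_le_pow _ _ (by omega)
    rw [← Finset.add_sum_erase _ _ (Finset.mem_Icc.mpr ⟨le_refl 1, hX1⟩)]
    apply _root_.add_le_add
    · have := hρ1 1 one_ne_zero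
      have h0 := hρ0 1 one_ne_zero
      split_ifs
      · have h3 : 0 ≤ (N.totient : ℝ) := Nat.cast_nonneg _
        simp only [Nat.cast_one, inv_one, mul_one]
        nlinarith
      · positivity
    · rw [hF, Finset.mul_sum, Finset.sum_filter]
      have e3 : (Finset.Icc 1 (M ^ C)).erase 1 = Finset.Icc 2 (M ^ C) := by
        ext n
        simp only [Finset.mem_erase, Finset.mem_Icc]
        omega
      rw [e3]
      apply Finset.sum_le_sum
      intro n hn
      rw [Finset.mem_Icc] at hn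
      have := hρ0 n (by omega)
      by_cases h : ((n : ℕ) : ZMod N) = 1
      · have h' : ¬ M ^ C < n := by omega
        simp only [h, h', not_false_eq_true, and_self, if_true]
        exact le_refl _
      · simp [h]
  have hsumMid : Summable (fun m : factoredNumbers P => (if ((m : ℕ) : ZMod N) = 1 ∧ ¬ M ^ C < m then
        (N.totient : ℝ) * (ρ m * ((m : ℕ) : ℝ)⁻¹) else 0)) := by
    apply Summable.of_nonneg_of_le _ _ hsumT
    · intro m
      have := hρ0 m m.2.1
      split_ifs <;> positivity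
    · intro m
      have := hρ0 m m.2.1
      by_cases h : ((m : ℕ) : ZMod N) = 1
      · by_cases h' : M ^ C < (m : ℕ)
        · simp only [h, h', not_true_eq_false, and_false, if_false, if_true]
          positivity
        · simp only [h, h', not_false_eq_true, and_self, if_true]
          exact le_refl _
      · simp [h]
  have hsplit : ∑' m : factoredNumbers P, (if ((m : ℕ) : ZMod N) = 1 then
        (N.totient : ℝ) * (ρ m * ((m : ℕ) : ℝ)⁻¹) else 0) ≤
      (N.totient + N.totient * F) + ∑' m : factoredNumbers P, (if ((m : ℕ) : ZMod N) = 1 ∧ M ^ C < m then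
        (N.totient : ℝ) * ((m : ℕ) : ℝ)⁻¹ else 0) := by
    calc _ ≤ ∑' m : factoredNumbers P, ((if ((m : ℕ) : ZMod N) = 1 ∧ ¬ M ^ C < m then
        (N.totient : ℝ) * (ρ m * ((m : ℕ) : ℝ)⁻¹) else 0) + (if ((m : ℕ) : ZMod N) = 1 ∧ M ^ C < m then
        (N.totient : ℝ) * ((m : ℕ) : ℝ)⁻¹ else 0)) := by
          apply hsumT.tsum_le_tsum _ (hsumMid.add hsumTail)
          intro m
          have h0 := hρ0 m m.2.1
          have h1 := hρ1 m m.2.1
          by_cases h : ((m : ℕ) : ZMod N) = 1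
          · by_cases h' : M ^ C < (m : ℕ)
            · simp only [h, h', not_true_eq_false, and_false, if_false, if_true, and_self, zero_add]
              apply mul_le_mul_of_nonneg_left _ (Nat.cast_nonneg _)
              have : 0 ≤ ((m : ℕ) : ℝ)⁻¹ := by positivity
              nlinarith
            · simp only [h, h', not_false_eq_true, and_self, if_true, and_false, if_false, add_zero]
              exact le_refl _
          · simp [h]
      _ = _ := hsumMid.tsum_add hsumTail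
      _ ≤ _ := by
        exact _root_.add_le_add hmid (le_refl _)
  -- assemble
  have hEE : EE N P ρ ≤ (N : ℝ) * Q + Q * G + Tl := by
    rw [EE]
    calc DP P * _ ≤ DP P * ((N.totient + N.totient * F) + ∑' m : factoredNumbers P,
          (if ((m : ℕ) : ZMod N) = 1 ∧ M ^ C < m then (N.totient : ℝ) * ((m : ℕ) : ℝ)⁻¹ else 0)) :=
          mul_le_mul_of_nonneg_left hsplit hD.le
      _ = ((N.totient : ℝ) * DP P) + ((N.totient : ℝ) * DP P) * F + DP P * ∑' m : factoredNumbers P,
          (if ((m : ℕ) : ZMod N) = 1 ∧ M ^ C < m then (N.totient : ℝ) * ((m : ℕ) : ℝ)⁻¹ else 0) := by ring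
      _ ≤ ((N.totient : ℝ) * DP P) + ((N.totient : ℝ) * DP P) * F + Tl := by linarith
      _ = (N : ℝ) * Q + Q * ((N : ℝ) * F) + Tl := by rw [hφD]; ring
      _ ≤ (N : ℝ) * Q + Q * G + Tl := by
          have := mul_le_mul_of_nonneg_left hFG hQ0.le
          linarith
  by_cases hneg : EE N P ρ - N / Real.log M - Tl ≤ 0
  · have := mul_nonpos_of_nonneg_of_nonpos hlogM.le hneg
    linarith
  · push Not at hneg
    -- N Q ≤ N / log M
    have h1 : (N : ℝ) * Q ≤ N / Real.log M := by
      rw [le_div_iff₀ hlogM]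
      nlinarith
    have h2 : EE N P ρ - N / Real.log M - Tl ≤ Q * G := by linarith
    calc Real.log M * (EE N P ρ - N / Real.log M - Tl) ≤ Real.log M * (Q * G) :=
          mul_le_mul_of_nonneg_left h2 hlogM.le
      _ = (Real.log M * Q) * G := by ring
      _ ≤ 1 * G := mul_le_mul_of_nonneg_right hQL hG0
      _ = G := one_mul G

end Pool.Agent.Helper89
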