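import Mathlib

set_option autoImplicit false

namespace Pool.Agent.Helper89

open Complex

theorem T_abs (l : ℕ) (G : ℕ → Type) [∀ i, Fintype (G i)] [∀ i, Nonempty (G i)]
    (a V : ∀ i, G i → ℂ) (lift : ∀ i, G i → G (i + 1))
    (hV : ∀ i < l, ∀ ψ, V i ψ = a i ψ * (1 + V (i + 1) (lift i ψ)))
    (hVl : ∀ ψ, V l ψ = 0)
    (ha : ∀ i < l, ∀ ψ, ‖a i ψ‖ ≤ 1)
    (hs : ∀ i < l, ∀ ψ ψ', ψ ≠ ψ' →
      ‖a i ψ‖ * ‖a i ψ'‖ ≤ (1 / (2 * (l + 1) * (Fintype.card (G i) : ℝ))) ^ 2) :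
    -(3 * (l + 1) : ℝ) ≤ ∑ i ∈ Finset.range l, (∑ ψ, V i ψ).re := by
  classical
  -- step 1: crude bounds
  have hcard : ∀ i, (1 : ℝ) ≤ Fintype.card (G i) := by
    intro i
    exact_mod_cast Fintype.card_pos
  have hl0 : (0 : ℝ) ≤ l := Nat.cast_nonneg l
  have hVb : ∀ d i, i + d = l → ∀ ψ, ‖V i ψ‖ ≤ d := by
    intro d
    induction d with
    | zero =>
      intro i hi ψ
      have : i = l := by omega
      subst this
      simp [hVl ψ]
    | succ d ih =>
      intro i hi ψ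
      have hil : i < l := by omega
      rw [hV i hil ψ, norm_mul]
      have h1 := ih (i + 1) (by omega) (lift i ψ)
      have h2 : ‖1 + V (i + 1) (lift i ψ)‖ ≤ 1 + d := by
        calc ‖1 + V (i + 1) (lift i ψ)‖ ≤ ‖(1 : ℂ)‖ + ‖V (i + 1) (lift i ψ)‖ := norm_add_le _ _
          _ ≤ 1 + d := by rw [norm_one]; linarith
      have h3 := ha i hil ψ
      push_cast
      calc ‖a i ψ‖ * ‖1 + V (i + 1) (lift i ψ)‖ ≤ 1 * (1 + d) :=
            mul_le_mul h3 h2 (norm_nonneg _) (by norm_num)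
        _ = d + 1 := by ring
  have hVa : ∀ i < l, ∀ ψ, ‖V i ψ‖ ≤ ‖a i ψ‖ * l := by
    intro i hi ψ
    rw [hV i hi ψ, norm_mul]
    apply mul_le_mul_of_nonneg_left _ (norm_nonneg _)
    have h1 := hVb (l - (i + 1)) (i + 1) (by omega) (lift i ψ)
    have h2 : ((l - (i + 1) : ℕ) : ℝ) = l - (i + 1) := by
      rw [Nat.cast_sub (by omega)]; push_cast; ring
    calc ‖1 + V (i + 1) (lift i ψ)‖ ≤ ‖(1 : ℂ)‖ + ‖V (i + 1) (lift i ψ)‖ := norm_add_le _ _
      _ ≤ 1 + (l - (i + 1)) := by rw [norm_one, ← h2]; linarith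
      _ ≤ l := by
        have : (0 : ℝ) ≤ i := Nat.cast_nonneg i
        linarith
  -- step 2: choose the maximal character
  have hmax : ∀ i, ∃ ψ₀ : G i, ∀ ψ, ‖a i ψ‖ ≤ ‖a i ψ₀‖ := fun i =>
    Finite.exists_max (fun ψ => ‖a i ψ‖)
  choose star hstar using hmax
  set δ : ℕ → ℝ := fun i => 1 / (2 * (l + 1) * (Fintype.card (G i) : ℝ)) with hδ
  have hδpos : ∀ i, 0 < δ i := by
    intro i
    have := hcard i
    simp only [hδ]
    positivity
  have hsmall : ∀ i < l, ∀ ψ, ψ ≠ star i → ‖a i ψ‖ ≤ δ i := by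
    intro i hi ψ hne
    have h1 := hs i hi ψ (star i) hne
    have h2 := hstar i ψ
    have h3 : ‖a i ψ‖ ^ 2 ≤ (δ i) ^ 2 := by
      calc ‖a i ψ‖ ^ 2 = ‖a i ψ‖ * ‖a i ψ‖ := sq _
        _ ≤ ‖a i ψ‖ * ‖a i (star i)‖ := mul_le_mul_of_nonneg_left h2 (norm_nonneg _)
        _ ≤ (δ i) ^ 2 := h1
    exact le_of_sq_le_sq h3 (hδpos i).le
  have hδcard : ∀ i, (Fintype.card (G i) : ℝ) * (δ i * l) ≤ 1 / 2 := by
    intro i
    have := hcard i
    simp only [hδ]
    rw [div_mul_eq_mul_div, mul_div_assoc', div_le_div_iff₀ (by positivity) (by norm_num)]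
    nlinarith
  have hδl : ∀ i, δ i * l ≤ 1 / 2 := by
    intro i
    have h1 := hδcard i
    have h2 := hcard i
    have h3 : 0 ≤ δ i * l := mul_nonneg (hδpos i).le hl0
    nlinarith
  have hVsmall : ∀ i < l, ∀ ψ, ψ ≠ star i → ‖V i ψ‖ ≤ δ i * l := by
    intro i hi ψ hne
    exact (hVa i hi ψ).trans (mul_le_mul_of_nonneg_right (hsmall i hi ψ hne) hl0)
  -- step 3
  set W : ℕ → ℂ := fun i => V i (star i) with hW
  have h3 : ∀ i < l, (W i).re - 1 / 2 ≤ (∑ ψ, V i ψ).re := by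
    intro i hi
    rw [← Finset.add_sum_erase Finset.univ (V i) (Finset.mem_univ (star i))]
    rw [Complex.add_re]
    have h4 : ‖∑ ψ ∈ Finset.univ.erase (star i), V i ψ‖ ≤ 1 / 2 := by
      calc ‖∑ ψ ∈ Finset.univ.erase (star i), V i ψ‖
          ≤ ∑ ψ ∈ Finset.univ.erase (star i), ‖V i ψ‖ := norm_sum_le _ _
        _ ≤ ∑ ψ ∈ Finset.univ.erase (star i), δ i * l := by
            apply Finset.sum_le_sum
            intro ψ hψ
            exact hVsmall i hi ψ (Finset.ne_of_mem_erase hψ)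
        _ ≤ ∑ ψ : G i, δ i * l := by
            apply Finset.sum_le_sum_of_subset_of_nonneg (Finset.erase_subset _ _)
            intro _ _ _
            exact mul_nonneg (hδpos i).le hl0
        _ = (Fintype.card (G i) : ℝ) * (δ i * l) := by simp
        _ ≤ 1 / 2 := hδcard i
    have h5 := (abs_le.mp (Complex.abs_re_le_norm (∑ ψ ∈ Finset.univ.erase (star i), V i ψ))).1
    have h6 : (V i (star i)).re = (W i).re := rfl
    linarith
  -- step 4
  have hnsq : ∀ z : ℂ, ‖1 + z‖ ^ 2 = 1 + 2 * z.re + ‖z‖ ^ 2 := by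
    intro z
    rw [← Complex.normSq_eq_norm_sq, ← Complex.normSq_eq_norm_sq, Complex.normSq_apply,
      Complex.normSq_apply]
    simp
    ring
  have h4 : ∀ i < l, ‖1 + W i‖ ^ 2 - ‖1 + W (i + 1)‖ ^ 2 - 13 / 4 ≤ 2 * (W i).re := by
    intro i hi
    rw [hnsq (W i)]
    have h5 : ‖W i‖ ^ 2 ≤ ‖1 + V (i + 1) (lift i (star i))‖ ^ 2 := by
      have : ‖W i‖ ≤ ‖1 + V (i + 1) (lift i (star i))‖ := by
        simp only [hW]
        rw [hV i hi (star i), norm_mul]
        have := ha i hi (star i)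
        nlinarith [norm_nonneg (1 + V (i + 1) (lift i (star i)))]
      exact pow_le_pow_left₀ (norm_nonneg _) this 2
    have h6 : ‖1 + V (i + 1) (lift i (star i))‖ ^ 2 ≤ ‖1 + W (i + 1)‖ ^ 2 + 9 / 4 := by
      by_cases hc : lift i (star i) = star (i + 1)
      · rw [hc]
        simp only [hW]
        linarith
      · have h7 : ‖V (i + 1) (lift i (star i))‖ ≤ 1 / 2 := by
          rcases Nat.lt_or_ge (i + 1) l with h | h
          · exact (hVsmall (i + 1) h _ hc).trans (hδl _)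
          · have : i + 1 = l := by omega
            subst this
            rw [hVl]
            simp
        have h8 : ‖1 + V (i + 1) (lift i (star i))‖ ≤ 3 / 2 := by
          calc _ ≤ ‖(1 : ℂ)‖ + ‖V (i + 1) (lift i (star i))‖ := norm_add_le _ _
            _ ≤ 3 / 2 := by rw [norm_one]; linarith
        have h9 : ‖1 + V (i + 1) (lift i (star i))‖ ^ 2 ≤ (3 / 2) ^ 2 :=
          pow_le_pow_left₀ (norm_nonneg _) h8 2
        have := sq_nonneg ‖1 + W (i + 1)‖
        linarith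
    linarith
  -- step 5
  have h5 : ∑ i ∈ Finset.range l, (‖1 + W i‖ ^ 2 - ‖1 + W (i + 1)‖ ^ 2 - 17 / 4) ≤
      ∑ i ∈ Finset.range l, 2 * (∑ ψ, V i ψ).re := by
    apply Finset.sum_le_sum
    intro i hi
    rw [Finset.mem_range] at hi
    have := h3 i hi
    have := h4 i hi
    linarith
  rw [Finset.sum_sub_distrib, Finset.sum_range_sub', ← Finset.mul_sum] at h5
  simp only [Finset.sum_const, Finset.card_range, nsmul_eq_mul] at h5
  have h6 : W l = 0 := hVl _
  rw [h6] at h5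
  simp only [add_zero, norm_one] at h5
  have := sq_nonneg ‖1 + W 0‖
  linarith

end Pool.Agent.Helper89
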