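import Pool.Agent.Helper89.G
import Pool.Agent.Helper89.T

set_option autoImplicit false

namespace Pool.Agent.Helper89

open Complex Nat Filter

/-- the modulus `k * m!`. -/
def modu (k : ℕ+) (m : ℕ) : ℕ := (k : ℕ) * m !

instance (k : ℕ+) (m : ℕ) : NeZero (modu k m) :=
  ⟨Nat.mul_ne_zero k.ne_zero (Nat.factorial_ne_zero m)⟩

lemma prime_dvd_modu (k : ℕ+) (m : ℕ) (hk : (k : ℕ) ≤ m) (p : ℕ) (hp : p.Prime) :
    p ∣ modu k m ↔ p ≤ m := by
  rw [modu, hp.dvd_mul, hp.dvd_factorial]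
  constructor
  · rintro (h | h)
    · exact (Nat.le_of_dvd k.pos h).trans hk
    · exact h
  · intro h; right; exact h

lemma modu_dvd (k : ℕ+) {m m' : ℕ} (h : m ≤ m') : modu k m ∣ modu k m' :=
  Nat.mul_dvd_mul_left _ (Nat.factorial_dvd_factorial h)

/-- the smallness and size conditions between two consecutive scales. -/
def GoodStep (k : ℕ+) (l : ℕ) (ε : ℝ) (m m' : ℕ) : Prop :=
  (∀ χ : ℕ → ℂ, (∀ n ≠ 0, ‖χ n‖ = 1) → ∀ ψ₁ ψ₂ : DirichletCharacter ℂ (modu k m), ψ₁ ≠ ψ₂ →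
      ‖EP (PI m m') (fun p => χ p * ψ₁ (p : ZMod (modu k m)))‖ *
        ‖EP (PI m m') (fun p => χ p * ψ₂ (p : ZMod (modu k m)))‖ ≤
        (1 / (2 * (l + 1) * (Fintype.card (DirichletCharacter ℂ (modu k m)) : ℝ))) ^ 2 ⊓
        (ε / (Fintype.card (DirichletCharacter ℂ (modu k m)) : ℝ))) ∧
  (modu k m : ℝ) ≤ ε * Real.log m'

lemma exists_goodStep {ι : Type} [Fintype ι] (κ : ι → ℕ+) (l : ℕ) (ε : ℝ) (hε : 0 < ε) (m : ℕ)
    (hm : ∀ t, (κ t : ℕ) ≤ m) : ∃ m' > m, ∀ t, GoodStep (κ t) l ε m m' := by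
  have h : ∀ᶠ m' in atTop, ∀ t, GoodStep (κ t) l ε m m' := by
    rw [eventually_all]
    intro t
    have hcard : (0 : ℝ) < Fintype.card (DirichletCharacter ℂ (modu (κ t) m)) := by
      exact_mod_cast Fintype.card_pos
    have h1 := exists_next (modu (κ t) m) m (prime_dvd_modu (κ t) m (hm t))
      ((1 / (2 * (l + 1) * (Fintype.card (DirichletCharacter ℂ (modu (κ t) m)) : ℝ))) ^ 2 ⊓
        (ε / (Fintype.card (DirichletCharacter ℂ (modu (κ t) m)) : ℝ)))
      (lt_min (by positivity) (by positivity))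
    have h2 : ∀ᶠ m' : ℕ in atTop, (modu (κ t) m : ℝ) ≤ ε * Real.log m' := by
      have : Tendsto (fun m' : ℕ => ε * Real.log m') atTop atTop :=
        (Real.tendsto_log_atTop.comp tendsto_natCast_atTop_atTop).const_mul_atTop hε
      exact this.eventually_ge_atTop _
    filter_upwards [h1, h2] with m' a1 a2
    exact ⟨a1, a2⟩
  obtain ⟨m', h1, h2⟩ := (h.and (eventually_gt_atTop m)).exists
  exact ⟨m', h2, h1⟩

/-- existence of the sequence of scales. -/
lemma exists_scales {ι : Type} [Fintype ι] (κ : ι → ℕ+) (l : ℕ) (ε : ℝ) (hε : 0 < ε) (m₀ : ℕ)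
    (hm₀ : ∀ t, (κ t : ℕ) ≤ m₀) :
    ∃ M : ℕ → ℕ, M 0 = m₀ ∧ StrictMono M ∧ ∀ i t, GoodStep (κ t) l ε (M i) (M (i + 1)) := by
  have hstep : ∀ m : {m : ℕ // m₀ ≤ m}, ∃ m' : {m : ℕ // m₀ ≤ m}, m.1 < m'.1 ∧
      ∀ t, GoodStep (κ t) l ε m.1 m'.1 := by
    rintro ⟨m, hm⟩
    obtain ⟨m', h1, h2⟩ := exists_goodStep κ l ε hε m (fun t => (hm₀ t).trans hm)
    exact ⟨⟨m', hm.trans h1.le⟩, h1, h2⟩
  choose next hnext1 hnext2 using hstep
  let M : ℕ → {m : ℕ // m₀ ≤ m} := fun n => Nat.rec ⟨m₀, le_refl _⟩ (fun _ m => next m) n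
  refine ⟨fun n => (M n).1, rfl, strictMono_nat_of_lt_succ (fun n => hnext1 (M n)), fun i t => hnext2 (M i) t⟩

lemma changeLevel_apply_nat {n m : ℕ} (hm : n ∣ m) (ψ : DirichletCharacter ℂ n) (p : ℕ)
    (hp : p.Coprime m) : DirichletCharacter.changeLevel hm ψ (p : ZMod m) = ψ (p : ZMod n) := by
  have h := DirichletCharacter.changeLevel_eq_cast_of_dvd ψ hm (ZMod.unitOfCoprime p hp)
  rw [ZMod.coe_unitOfCoprime, ZMod.cast_natCast hm] at h
  exact h

/-- the T-argument for one character `χ`. -/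
theorem T_bound (k : ℕ+) (l : ℕ) (ε : ℝ) (M : ℕ → ℕ) (hM : StrictMono M)
    (hk : (k : ℕ) ≤ M 0) (hgood : ∀ i, GoodStep k l ε (M i) (M (i + 1)))
    (χ : ℕ → ℂ) (hχ : ∀ n ≠ 0, ‖χ n‖ = 1) :
    -(3 * (l + 1) : ℝ) ≤ ∑ i ∈ Finset.range l, (∑ j ∈ Finset.Ioc i l,
      ∑ ψ : DirichletCharacter ℂ (modu k (M i)),
        EP (PI (M i) (M j)) (fun p => χ p * ψ (p : ZMod (modu k (M i))))).re := by
  have hmain := T_abs l (fun i => DirichletCharacter ℂ (modu k (M i)))
    (fun i ψ => EP (PI (M i) (M (i + 1))) (fun p => χ p * ψ (p : ZMod (modu k (M i)))))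
    (fun i ψ => ∑ j ∈ Finset.Ioc i l, EP (PI (M i) (M j)) (fun p => χ p * ψ (p : ZMod (modu k (M i)))))
    (fun i ψ => DirichletCharacter.changeLevel (modu_dvd k (hM (Nat.lt_succ_self i)).le) ψ)
    ?_ ?_ ?_ ?_
  · refine hmain.trans (le_of_eq ?_)
    apply Finset.sum_congr rfl
    intro i _
    rw [Finset.sum_comm]
  · -- recursion
    intro i hi ψ
    have hIoc : Finset.Ioc i l = insert (i + 1) (Finset.Ioc (i + 1) l) := by
      ext j
      simp only [Finset.mem_Ioc, Finset.mem_insert]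
      omega
    rw [hIoc, Finset.sum_insert (by simp), mul_add, mul_one]
    congr 1
    rw [Finset.mul_sum]
    apply Finset.sum_congr rfl
    intro j hj
    rw [Finset.mem_Ioc] at hj
    rw [EP_split (M i) (M (i + 1)) (M j) (hM (Nat.lt_succ_self i)).le (hM hj.1).le]
    congr 1
    apply EP_congr
    intro p hp
    have hpp := PI_prime hp
    rw [mem_PI] at hp
    have hk1 : (k : ℕ) ≤ M (i + 1) := hk.trans (hM.monotone (Nat.zero_le _))
    have hcop : p.Coprime (modu k (M (i + 1))) := by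
      rw [Nat.Prime.coprime_iff_not_dvd hpp, prime_dvd_modu k _ hk1 p hpp]
      omega
    rw [changeLevel_apply_nat _ ψ p hcop]
  · intro ψ
    simp
  · intro i _ ψ
    apply norm_EP_le_one _ (fun p hp => PI_prime hp)
    intro p hp
    rw [norm_mul, hχ p (PI_prime hp).ne_zero, one_mul]
    exact ψ.norm_le_one _
  · intro i _ ψ ψ' hne
    exact ((hgood i).1 χ hχ ψ ψ' hne).trans inf_le_left

/-- the nonprincipal characters contribute little. -/
theorem sum_nonprincipal_le (k : ℕ+) (l : ℕ) (ε : ℝ) (M : ℕ → ℕ) (hM : StrictMono M)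
    (hk : (k : ℕ) ≤ M 0) (hgood : ∀ i, GoodStep k l ε (M i) (M (i + 1))) (hε : 0 < ε)
    (i j : ℕ) (hij : i < j) :
    EP (PI (M i) (M j)) (fun p => (1 : DirichletCharacter ℂ (modu k (M i))) (p : ZMod (modu k (M i)))) = 1 ∧
    ∑ ψ ∈ (Finset.univ : Finset (DirichletCharacter ℂ (modu k (M i)))).erase 1,
      ‖EP (PI (M i) (M j)) (fun p => ψ (p : ZMod (modu k (M i))))‖ ≤ ε := by
  have hki : (k : ℕ) ≤ M i := hk.trans (hM.monotone (Nat.zero_le _))
  have hone : ∀ j', EP (PI (M i) (M j')) (fun p => (1 : DirichletCharacter ℂ (modu k (M i))) (p : ZMod (modu k (M i)))) = 1 := by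
    intro j'
    rw [EP]
    apply Finset.prod_eq_one
    intro p hp
    have hpp := PI_prime hp
    rw [mem_PI] at hp
    have hu : IsUnit (p : ZMod (modu k (M i))) := by
      rw [ZMod.isUnit_prime_iff_not_dvd hpp, prime_dvd_modu k _ hki p hpp]
      omega
    rw [MulChar.one_apply hu, one_mul]
    apply div_self
    have h1 : (p : ℝ)⁻¹ ≤ 1 / 2 := inv_prime_le_half hpp
    have h2 : (1 - (((p : ℝ)⁻¹ : ℝ) : ℂ)) = ((1 - (p : ℝ)⁻¹ : ℝ) : ℂ) := by push_cast; ring
    rw [h2]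
    have h3 : (1 - (p : ℝ)⁻¹) ≠ 0 := by
      intro h; linarith
    exact_mod_cast h3
  refine ⟨hone j, ?_⟩
  have hcard : (0 : ℝ) < Fintype.card (DirichletCharacter ℂ (modu k (M i))) := by
    exact_mod_cast Fintype.card_pos
  have hb : ∀ ψ ∈ (Finset.univ : Finset (DirichletCharacter ℂ (modu k (M i)))).erase 1,
      ‖EP (PI (M i) (M j)) (fun p => ψ (p : ZMod (modu k (M i))))‖ ≤
        ε / (Fintype.card (DirichletCharacter ℂ (modu k (M i))) : ℝ) := by
    intro ψ hψ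
    have hne : ψ ≠ 1 := Finset.ne_of_mem_erase hψ
    rw [EP_split (M i) (M (i + 1)) (M j) (hM (Nat.lt_succ_self i)).le (hM.monotone hij), norm_mul]
    have h1 := (hgood i).1 (fun _ => 1) (by intro n _; simp) ψ 1 hne
    simp only [one_mul] at h1
    have h2 := hone (i + 1)
    rw [h2, norm_one, mul_one] at h1
    have h3 := h1.trans inf_le_right
    have h4 : ‖EP (PI (M (i + 1)) (M j)) (fun p => ψ (p : ZMod (modu k (M i))))‖ ≤ 1 := by
      apply norm_EP_le_one _ (fun p hp => PI_prime hp)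
      intro p _
      exact ψ.norm_le_one _
    calc _ ≤ ε / (Fintype.card (DirichletCharacter ℂ (modu k (M i))) : ℝ) * 1 :=
          mul_le_mul h3 h4 (norm_nonneg _) (by positivity)
      _ = _ := mul_one _
  calc _ ≤ ∑ ψ ∈ (Finset.univ : Finset (DirichletCharacter ℂ (modu k (M i)))).erase 1,
        ε / (Fintype.card (DirichletCharacter ℂ (modu k (M i))) : ℝ) := Finset.sum_le_sum hb
    _ ≤ ∑ ψ : DirichletCharacter ℂ (modu k (M i)),
        ε / (Fintype.card (DirichletCharacter ℂ (modu k (M i))) : ℝ) := by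
        apply Finset.sum_le_sum_of_subset_of_nonneg (Finset.erase_subset _ _)
        intro _ _ _
        positivity
    _ = ε := by
        rw [Finset.sum_const, Finset.card_univ, nsmul_eq_mul]
        field_simp

end Pool.Agent.Helper89
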