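import Pool.Agent.Helper89.K

set_option autoImplicit false

namespace Pool.Agent.Helper89

open Complex Nat Filter

lemma PD_one : PD 1 (fun _ => 1) := by
  refine ⟨fun _ _ => zero_le_one, Unit, inferInstance, fun _ => 1, fun _ => 1, fun _ => zero_le_one, by simp,
    by simp, ⟨(), le_refl _, by simp⟩, by simp⟩

lemma PD_mul {w w' : ℝ} {ρ ρ' : ℕ → ℝ} (hw : 0 ≤ w) (hw' : 0 ≤ w') (h : PD w ρ) (h' : PD w' ρ') :
    PD (w * w') (fun n => ρ n * ρ' n) := by
  obtain ⟨h0, τ, _, a, χ, ha, hsum, hχ, ⟨t₀, ht₀, htriv⟩, hdec⟩ := h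
  obtain ⟨h0', τ', _, a', χ', ha', hsum', hχ', ⟨t₀', ht₀', htriv'⟩, hdec'⟩ := h'
  refine ⟨fun n hn => mul_nonneg (h0 n hn) (h0' n hn), τ × τ', inferInstance,
    fun t => a t.1 * a' t.2, fun t => χ t.1 * χ' t.2, fun t => mul_nonneg (ha _) (ha' _), ?_, ?_, ?_, ?_⟩
  · rw [Fintype.sum_prod_type]
    simp only
    have : ∑ x, ∑ y, a x * a' y = (∑ x, a x) * ∑ y, a' y := by
      rw [Finset.sum_mul_sum]
    rw [this]
    have h1 : 0 ≤ ∑ x, a x := Finset.sum_nonneg fun t _ => ha t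
    have h2 : 0 ≤ ∑ x, a' x := Finset.sum_nonneg fun t _ => ha' t
    nlinarith
  · intro t n hn
    rw [MonoidHom.mul_apply, norm_mul, hχ _ n hn, hχ' _ n hn, one_mul]
  · refine ⟨(t₀, t₀'), ?_, ?_⟩
    · exact mul_le_mul ht₀ ht₀' hw' (ha _)
    · intro n hn
      rw [MonoidHom.mul_apply, htriv n hn, htriv' n hn, one_mul]
  · intro n hn
    push_cast
    rw [hdec n hn, hdec' n hn, Fintype.sum_prod_type, Finset.sum_mul_sum]
    apply Finset.sum_congr rfl
    intro x _
    apply Finset.sum_congr rfl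
    intro y _
    simp only [MonoidHom.mul_apply]
    ring

lemma PD_prod {σ : Type} (C : Finset σ) (w : σ → ℝ) (ρ : σ → ℕ → ℝ) (hw : ∀ c ∈ C, 0 ≤ w c)
    (h : ∀ c ∈ C, PD (w c) (ρ c)) : PD (∏ c ∈ C, w c) (fun n => ∏ c ∈ C, ρ c n) := by
  classical
  induction C using Finset.induction_on with
  | empty => simpa using PD_one
  | insert c C hc ih =>
    rw [Finset.prod_insert hc]
    have h1 := PD_mul (hw c (Finset.mem_insert_self c C))
      (Finset.prod_nonneg fun c' hc' => hw c' (Finset.mem_insert_of_mem hc'))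
      (h c (Finset.mem_insert_self c C))
      (ih (fun c' hc' => hw c' (Finset.mem_insert_of_mem hc')) (fun c' hc' => h c' (Finset.mem_insert_of_mem hc')))
    convert h1 using 1
    funext n
    rw [Finset.prod_insert hc]

/-- autocorrelations of a function on a finite abelian group. -/
lemma PD_autocorr (G : Type) [AddCommGroup G] [Fintype G] (v : ℕ → G) (hv1 : v 1 = 0)
    (hvmul : ∀ m n, m ≠ 0 → n ≠ 0 → v (m * n) = v m + v n) (f : G → ℝ) (hf0 : ∀ x, 0 ≤ f x)
    (hf1 : ∀ x, f x ≤ 1) (δ : ℝ) (hδ0 : 0 ≤ δ) (hδ : δ * (Fintype.card G : ℝ) ≤ ∑ x, f x) :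
    PD (δ ^ 2) (fun n => (Fintype.card G : ℝ)⁻¹ * ∑ x, f x * f (x + v n)) := by
  classical
  have hG : (0 : ℝ) < Fintype.card G := by exact_mod_cast Fintype.card_pos
  have hGc : (Fintype.card G : ℂ) ≠ 0 := by exact_mod_cast hG.ne'
  let F : AddChar G ℂ → ℂ := fun ψ => ∑ x, (f x : ℂ) * ψ x
  -- the characters
  let χ : AddChar G ℂ → ℕ →* ℂ := fun ψ =>
    { toFun := fun n => if n = 0 then 0 else ψ (v n)
      map_one' := by simp [hv1]
      map_mul' := by
        intro m n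
        by_cases hm : m = 0
        · simp [hm]
        · by_cases hn : n = 0
          · simp [hn]
          · simp only [hm, hn, mul_eq_zero, or_self, if_false]
            rw [hvmul m n hm hn, AddChar.map_add_eq_mul] }
  have hχ : ∀ ψ, ∀ n ≠ 0, χ ψ n = ψ (v n) := by
    intro ψ n hn
    change (if n = 0 then 0 else ψ (v n)) = _
    rw [if_neg hn]
  -- Fourier identity
  have key : ∀ z : G, ∑ ψ : AddChar G ℂ, ((‖F ψ‖ ^ 2 : ℝ) : ℂ) * ψ z =
      (Fintype.card G : ℂ) * ∑ x, ((f x * f (x + z) : ℝ) : ℂ) := by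
    intro z
    have h1 : ∀ ψ : AddChar G ℂ, ((‖F ψ‖ ^ 2 : ℝ) : ℂ) * ψ z =
        ∑ x, ∑ y, ((f x : ℂ) * (f y : ℂ)) * ψ (x - y + z) := by
      intro ψ
      have h2 : ((‖F ψ‖ ^ 2 : ℝ) : ℂ) = F ψ * (starRingEnd ℂ) (F ψ) := by
        rw [Complex.mul_conj, Complex.normSq_eq_norm_sq]
      rw [h2]
      simp only [F]
      rw [map_sum, Finset.sum_mul_sum, Finset.sum_mul]
      apply Finset.sum_congr rfl
      intro x _
      rw [Finset.sum_mul]
      apply Finset.sum_congr rfl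
      intro y _
      rw [map_mul, Complex.conj_ofReal, AddChar.map_add_eq_mul, AddChar.map_sub_eq_div,
        div_eq_mul_inv, ← AddChar.inv_apply_eq_conj]
      ring_nf
    simp_rw [h1]
    rw [Finset.sum_comm]
    rw [Finset.mul_sum]
    apply Finset.sum_congr rfl
    intro x _
    rw [Finset.sum_comm]
    have h3 : ∀ y, ∑ ψ : AddChar G ℂ, ((f x : ℂ) * (f y : ℂ)) * ψ (x - y + z) =
        if y = x + z then ((f x : ℂ) * (f y : ℂ)) * (Fintype.card G : ℂ) else 0 := by
      intro y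
      rw [← Finset.mul_sum, AddChar.sum_apply_eq_ite]
      have h4 : (x - y + z = 0) ↔ (y = x + z) := by
        constructor
        · intro h
          have : y = x + z - (x - y + z) := by abel
          rw [h, sub_zero] at this
          exact this
        · rintro rfl
          abel
      by_cases h5 : y = x + z
      · rw [if_pos (h4.mpr h5), if_pos h5]
      · rw [if_neg (fun h => h5 (h4.mp h)), if_neg h5, mul_zero]
    simp_rw [h3]
    rw [Finset.sum_ite_eq' Finset.univ (x + z), if_pos (Finset.mem_univ _)]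
    push_cast
    ring
  refine ⟨fun n _ => ?_, AddChar G ℂ, inferInstance,
    fun ψ => ‖F ψ‖ ^ 2 / (Fintype.card G : ℝ) ^ 2, χ, fun ψ => by positivity, ?_, ?_, ?_, ?_⟩
  · apply mul_nonneg (by positivity)
    exact Finset.sum_nonneg fun x _ => mul_nonneg (hf0 _) (hf0 _)
  · -- total mass
    have h1 := key 0
    simp only [AddChar.map_zero_eq_one, mul_one, add_zero] at h1
    have h2 : ∑ ψ : AddChar G ℂ, ‖F ψ‖ ^ 2 = (Fintype.card G : ℝ) * ∑ x, f x * f x := by
      exact_mod_cast h1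
    rw [← Finset.sum_div, h2, div_le_one (by positivity), sq]
    apply mul_le_mul_of_nonneg_left _ hG.le
    calc ∑ x, f x * f x ≤ ∑ x : G, (1 : ℝ) := by
          apply Finset.sum_le_sum
          intro x _
          nlinarith [hf0 x, hf1 x]
      _ = Fintype.card G := by simp
  · intro ψ n hn
    rw [hχ ψ n hn]
    exact AddChar.norm_apply ψ _
  · refine ⟨0, ?_, ?_⟩
    · have h1 : F 0 = ((∑ x, f x : ℝ) : ℂ) := by
        simp [F]
      change δ ^ 2 ≤ ‖F 0‖ ^ 2 / (Fintype.card G : ℝ) ^ 2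
      rw [h1, Complex.norm_real, Real.norm_of_nonneg (Finset.sum_nonneg fun x _ => hf0 x), ← div_pow]
      apply pow_le_pow_left₀ hδ0
      rw [le_div_iff₀ hG]
      exact hδ
    · intro n hn
      rw [hχ 0 n hn]
      simp
  · intro n hn
    have h1 := key (v n)
    have h2 : ∀ ψ : AddChar G ℂ, ((‖F ψ‖ ^ 2 / (Fintype.card G : ℝ) ^ 2 : ℝ) : ℂ) * χ ψ n =
        ((Fintype.card G : ℂ) ^ 2)⁻¹ * (((‖F ψ‖ ^ 2 : ℝ) : ℂ) * ψ (v n)) := by
      intro ψ
      rw [hχ ψ n hn]
      push_cast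
      field_simp
    simp_rw [h2]
    rw [← Finset.mul_sum, h1]
    push_cast
    field_simp

end Pool.Agent.Helper89
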