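import Pool.Agent.Helper89.H

set_option autoImplicit false

namespace Pool.Agent.Helper89

open Complex Nat Filter

/-- nonnegative combinations of completely multiplicative unimodular functions, nonnegative on `ℕ`,
with weight at least `w` on the trivial function. -/
def PD (w : ℝ) (ρ : ℕ → ℝ) : Prop :=
  (∀ n ≠ 0, 0 ≤ ρ n) ∧
  ∃ (τ : Type) (_ : Fintype τ) (a : τ → ℝ) (χ : τ → ℕ →* ℂ),
    (∀ t, 0 ≤ a t) ∧ (∑ t, a t ≤ 1) ∧ (∀ t, ∀ n ≠ 0, ‖χ t n‖ = 1) ∧
    (∃ t₀, w ≤ a t₀ ∧ ∀ n ≠ 0, χ t₀ n = 1) ∧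
    ∀ n ≠ 0, (ρ n : ℂ) = ∑ t, (a t : ℂ) * χ t n

lemma EE_decomp (N : ℕ) [NeZero N] (P : Finset ℕ) (hP : ∀ p ∈ P, p.Prime) (ρ : ℕ → ℝ)
    {τ : Type} [Fintype τ] (a : τ → ℝ) (χ : τ → ℕ →* ℂ) (hχ : ∀ t, ∀ n ≠ 0, ‖χ t n‖ = 1)
    (hρ : ∀ n ≠ 0, (ρ n : ℂ) = ∑ t, (a t : ℂ) * χ t n) :
    EE N P ρ = ∑ t, a t * (∑ ψ : DirichletCharacter ℂ N, EP P (fun p => χ t p * ψ (p : ZMod N))).re := by
  have h1 := hasSum_sum (s := Finset.univ) (fun t _ => (hasSum_EE (χ t) (hχ t) N P hP).mul_left (a t : ℂ))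
  have h2 : (EE N P ρ : ℂ) = ∑ t, (a t : ℂ) * ∑ ψ : DirichletCharacter ℂ N, EP P (fun p => χ t p * ψ (p : ZMod N)) := by
    rw [← h1.tsum_eq, EE, ← tsum_mul_left, Complex.ofReal_tsum]
    apply tsum_congr
    intro m
    have hm := hρ m m.2.1
    by_cases h : ((m : ℕ) : ZMod N) = 1
    · simp only [h, if_true]
      push_cast
      rw [hm, Finset.sum_mul, Finset.mul_sum, Finset.mul_sum]
      apply Finset.sum_congr rfl
      intro t _
      push_cast
      ring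
    · simp [h]
  have h3 := congrArg Complex.re h2
  rw [Complex.ofReal_re, Complex.re_sum] at h3
  rw [h3]
  apply Finset.sum_congr rfl
  intro t _
  rw [Complex.re_ofReal_mul]

/-- the sum over all pairs of scales, lower bound. -/
theorem pair_sum_ge (k : ℕ+) (l : ℕ) (ε : ℝ) (hε : 0 < ε) (hε1 : ε ≤ 1) (M : ℕ → ℕ) (hM : StrictMono M)
    (hk : (k : ℕ) ≤ M 0) (hgood : ∀ i, GoodStep k l ε (M i) (M (i + 1)))
    (w : ℝ) (hw : 0 ≤ w) (ρ : ℕ → ℝ) (hρ : PD w ρ) :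
    w * (1 - ε) * (∑ i ∈ Finset.range l, ((Finset.Ioc i l).card : ℝ)) - 3 * (l + 1) ≤
      ∑ i ∈ Finset.range l, ∑ j ∈ Finset.Ioc i l, EE (modu k (M i)) (PI (M i) (M j)) ρ := by
  classical
  obtain ⟨_, τ, _, a, χ, ha, hsum, hχ, ⟨t₀, ht₀, htriv⟩, hdec⟩ := hρ
  have h1 : ∑ i ∈ Finset.range l, ∑ j ∈ Finset.Ioc i l, EE (modu k (M i)) (PI (M i) (M j)) ρ =
      ∑ t, a t * ∑ i ∈ Finset.range l, (∑ j ∈ Finset.Ioc i l,
      ∑ ψ : DirichletCharacter ℂ (modu k (M i)),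
        EP (PI (M i) (M j)) (fun p => χ t p * ψ (p : ZMod (modu k (M i))))).re := by
    simp_rw [Finset.mul_sum]
    rw [Finset.sum_comm]
    apply Finset.sum_congr rfl
    intro i _
    simp_rw [Complex.re_sum, Finset.mul_sum]
    rw [Finset.sum_comm]
    apply Finset.sum_congr rfl
    intro j _
    rw [EE_decomp (modu k (M i)) (PI (M i) (M j)) (fun p hp => PI_prime hp) ρ a χ hχ hdec]
    apply Finset.sum_congr rfl
    intro t _
    rw [Complex.re_sum, Finset.mul_sum]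
  rw [h1]
  have hcnt : (0 : ℝ) ≤ ∑ i ∈ Finset.range l, ((Finset.Ioc i l).card : ℝ) :=
    Finset.sum_nonneg fun _ _ => Nat.cast_nonneg _
  -- trivial character
  have htr : (1 - ε) * (∑ i ∈ Finset.range l, ((Finset.Ioc i l).card : ℝ)) ≤
      ∑ i ∈ Finset.range l, (∑ j ∈ Finset.Ioc i l,
      ∑ ψ : DirichletCharacter ℂ (modu k (M i)),
        EP (PI (M i) (M j)) (fun p => χ t₀ p * ψ (p : ZMod (modu k (M i))))).re := by
    rw [Finset.mul_sum]
    apply Finset.sum_le_sum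
    intro i _
    rw [Complex.re_sum]
    have : (1 - ε) * ((Finset.Ioc i l).card : ℝ) = ∑ j ∈ Finset.Ioc i l, (1 - ε) := by
      rw [Finset.sum_const, nsmul_eq_mul, mul_comm]
    rw [this]
    apply Finset.sum_le_sum
    intro j hj
    rw [Finset.mem_Ioc] at hj
    have h2 := sum_nonprincipal_le k l ε M hM hk hgood hε i j hj.1
    have h3 : ∀ ψ : DirichletCharacter ℂ (modu k (M i)),
        EP (PI (M i) (M j)) (fun p => χ t₀ p * ψ (p : ZMod (modu k (M i)))) =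
        EP (PI (M i) (M j)) (fun p => ψ (p : ZMod (modu k (M i)))) := by
      intro ψ
      apply EP_congr
      intro p hp
      rw [htriv p (PI_prime hp).ne_zero, one_mul]
    simp_rw [h3]
    rw [← Finset.add_sum_erase Finset.univ _ (Finset.mem_univ (1 : DirichletCharacter ℂ (modu k (M i)))),
      h2.1, Complex.add_re, Complex.one_re]
    have h4 := (abs_le.mp (Complex.abs_re_le_norm (∑ ψ ∈ (Finset.univ : Finset (DirichletCharacter ℂ (modu k (M i)))).erase 1,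
      EP (PI (M i) (M j)) (fun p => ψ (p : ZMod (modu k (M i))))))).1
    have h5 := norm_sum_le ((Finset.univ : Finset (DirichletCharacter ℂ (modu k (M i)))).erase 1)
      (fun ψ => EP (PI (M i) (M j)) (fun p => ψ (p : ZMod (modu k (M i)))))
    linarith [h2.2]
  rw [← Finset.add_sum_erase Finset.univ _ (Finset.mem_univ t₀)]
  have hothers : -(3 * (l + 1) : ℝ) ≤ (∑ t ∈ Finset.univ.erase t₀, a t) * (-(3 * (l + 1) : ℝ)) := by
    have h6 : ∑ t ∈ Finset.univ.erase t₀, a t ≤ 1 := by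
      calc _ ≤ ∑ t, a t := Finset.sum_le_sum_of_subset_of_nonneg (Finset.erase_subset _ _) (fun t _ _ => ha t)
        _ ≤ 1 := hsum
    have h7 : (0 : ℝ) ≤ 3 * (l + 1) := by positivity
    nlinarith
  have hoth2 : (∑ t ∈ Finset.univ.erase t₀, a t) * (-(3 * (l + 1) : ℝ)) ≤
      ∑ t ∈ Finset.univ.erase t₀, a t * ∑ i ∈ Finset.range l, (∑ j ∈ Finset.Ioc i l,
      ∑ ψ : DirichletCharacter ℂ (modu k (M i)),
        EP (PI (M i) (M j)) (fun p => χ t p * ψ (p : ZMod (modu k (M i))))).re := by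
    rw [Finset.sum_mul]
    apply Finset.sum_le_sum
    intro t _
    apply mul_le_mul_of_nonneg_left _ (ha t)
    exact T_bound k l ε M hM hk hgood (fun n => χ t n) (hχ t)
  have htr2 : w * (1 - ε) * (∑ i ∈ Finset.range l, ((Finset.Ioc i l).card : ℝ)) ≤
      a t₀ * ∑ i ∈ Finset.range l, (∑ j ∈ Finset.Ioc i l,
      ∑ ψ : DirichletCharacter ℂ (modu k (M i)),
        EP (PI (M i) (M j)) (fun p => χ t₀ p * ψ (p : ZMod (modu k (M i))))).re := by
    have h8 : 0 ≤ (1 - ε) * (∑ i ∈ Finset.range l, ((Finset.Ioc i l).card : ℝ)) :=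
      mul_nonneg (by linarith) hcnt
    rw [mul_assoc]
    calc w * ((1 - ε) * (∑ i ∈ Finset.range l, ((Finset.Ioc i l).card : ℝ)))
        ≤ a t₀ * ((1 - ε) * (∑ i ∈ Finset.range l, ((Finset.Ioc i l).card : ℝ))) :=
          mul_le_mul_of_nonneg_right ht₀ h8
      _ ≤ _ := mul_le_mul_of_nonneg_left htr (ha t₀)
  linarith

lemma PD_le_one {w : ℝ} {ρ : ℕ → ℝ} (hρ : PD w ρ) : ∀ n ≠ 0, ρ n ≤ 1 := by
  obtain ⟨_, τ, _, a, χ, ha, hsum, hχ, _, hdec⟩ := hρ
  intro n hn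
  have h1 : ‖(ρ n : ℂ)‖ ≤ 1 := by
    rw [hdec n hn]
    calc ‖∑ t, (a t : ℂ) * χ t n‖ ≤ ∑ t, ‖(a t : ℂ) * χ t n‖ := norm_sum_le _ _
      _ = ∑ t, a t := by
        apply Finset.sum_congr rfl
        intro t _
        rw [norm_mul, Complex.norm_real, Real.norm_of_nonneg (ha t), hχ t n hn, mul_one]
      _ ≤ 1 := hsum
  rw [Complex.norm_real] at h1
  exact (le_abs_self _).trans h1

lemma sum_Ioc_card (l : ℕ) : (∑ i ∈ Finset.range l, ((Finset.Ioc i l).card : ℝ)) = l * (l + 1) / 2 := by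
  have h1 : ∀ l : ℕ, (∑ i ∈ Finset.range l, (l - i)) = ∑ i ∈ Finset.range l, (i + 1) := by
    intro l
    rw [← Finset.sum_range_reflect]
    apply Finset.sum_congr rfl
    intro i hi
    rw [Finset.mem_range] at hi
    omega
  have h2 : (∑ i ∈ Finset.range l, ((Finset.Ioc i l).card : ℝ)) = ((∑ i ∈ Finset.range l, (l - i) : ℕ) : ℝ) := by
    push_cast
    apply Finset.sum_congr rfl
    intro i _
    rw [Nat.card_Ioc]
  rw [h2, h1]
  clear h1 h2
  induction l with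
  | zero => simp
  | succ l ih =>
    rw [Finset.sum_range_succ]
    push_cast at ih ⊢
    rw [ih]
    ring

theorem keyProp (w : ℝ) (hw : 0 < w) (hw1 : w ≤ 1) :
    ∃ c > 0, ∀ (ι : Type) [Fintype ι] [Nonempty ι] (κ : ι → ℕ+), ∃ Y : ℕ, ∀ ρ : ℕ → ℝ, PD w ρ →
      ∃ y, 0 < y ∧ y ≤ Y ∧ c * (Fintype.card ι : ℝ) ≤ ∑ t, ρ ((κ t : ℕ) * y + 1) := by
  -- choice of parameters
  obtain ⟨l, hl⟩ := exists_nat_ge (48 / w)
  have hl1 : (48 : ℝ) ≤ l * w := by
    rw [div_le_iff₀ hw] at hl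
    exact hl
  have hl0 : (0 : ℝ) < l := by
    by_contra h
    push Not at h
    nlinarith
  obtain ⟨C, hC⟩ := exists_nat_ge (8 - Real.log (w / 16))
  have hC1 : 2 * Real.exp (8 - C) ≤ w / 8 := by
    have : Real.exp (8 - C) ≤ w / 16 := by
      calc Real.exp (8 - C) ≤ Real.exp (Real.log (w / 16)) := by
            apply Real.exp_le_exp.mpr; linarith
        _ = w / 16 := Real.exp_log (by positivity)
    linarith
  set ε : ℝ := w / 8 with hεdef
  have hε : 0 < ε := by positivity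
  have hε1 : ε ≤ 1 := by rw [hεdef]; linarith
  refine ⟨w / (4 * (1 + C)), by positivity, ?_⟩
  intro ι _ _ κ
  have hcardι : (0 : ℝ) < Fintype.card ι := by exact_mod_cast Fintype.card_pos
  obtain ⟨m₀, hm₀⟩ : ∃ m₀ : ℕ, 8 ≤ m₀ ∧ ∀ t, (κ t : ℕ) ≤ m₀ := by
    refine ⟨8 + ∑ t, (κ t : ℕ), by omega, fun t => ?_⟩
    have := Finset.single_le_sum (f := fun t => (κ t : ℕ)) (fun _ _ => Nat.zero_le _) (Finset.mem_univ t)
    omega
  obtain ⟨M, hM0, hM, hgood⟩ := exists_scales κ l ε hε m₀ hm₀.2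
  have hMge : ∀ i, 8 ≤ M i := fun i => by
    have : M 0 ≤ M i := hM.monotone (Nat.zero_le i)
    omega
  refine ⟨(M l)! * (M l) ^ C, ?_⟩
  intro ρ hρ
  by_contra hcon
  push Not at hcon
  set c : ℝ := w / (4 * (1 + C)) with hc
  have hc0 : 0 < c := by positivity
  have hρ0 := hρ.1
  have hρ1 := PD_le_one hρ
  -- upper bound for each pair (i,j)
  have hup : ∀ i ∈ Finset.range l, ∀ j ∈ Finset.Ioc i l,
      ∑ t, EE (modu (κ t) (M i)) (PI (M i) (M j)) ρ ≤ (Fintype.card ι : ℝ) * (c * (1 + C) + 2 * ε) := by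
    intro i hi j hj
    rw [Finset.mem_range] at hi
    rw [Finset.mem_Ioc] at hj
    have hMj : (8 : ℝ) ≤ M j := by exact_mod_cast hMge j
    have hlog1 : 1 ≤ Real.log (M j) := by
      have h1 : Real.log 8 ≤ Real.log (M j) := Real.log_le_log (by norm_num) hMj
      have h2 : Real.log 8 = 3 * Real.log 2 := by
        rw [show (8 : ℝ) = 2 ^ 3 by norm_num, Real.log_pow]; norm_num
      have h3 := Real.log_two_gt_d9
      linarith
    have hdom : ∀ t, Real.log (M j) * (EE (modu (κ t) (M i)) (PI (M i) (M j)) ρ - 2 * ε) ≤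
        ∑ m ∈ Finset.Icc 1 ((M j) ^ C), (m : ℝ)⁻¹ * ρ ((κ t : ℕ) * ((M i)! * m) + 1) := by
      intro t
      have hki : (κ t : ℕ) ≤ M i := (hm₀.2 t).trans (hM0 ▸ hM.monotone (Nat.zero_le i))
      have h1 := domination (modu (κ t) (M i)) (M i) (M j) C (prime_dvd_modu (κ t) (M i) hki)
        (by have := hMge i; omega) (hM hj.1).le (hMge j) ρ hρ0 hρ1
      have h2 : ∀ m, modu (κ t) (M i) * m + 1 = (κ t : ℕ) * ((M i)! * m) + 1 := by
        intro m; rw [modu]; ring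
      simp_rw [h2] at h1
      refine le_trans ?_ h1
      apply mul_le_mul_of_nonneg_left _ (by linarith)
      have h3 := sum_nonprincipal_le (κ t) l ε M hM ((hm₀.2 t).trans (hM0 ▸ le_refl _)) (fun i => hgood i t) hε i j hj.1
      have h4 : ∑ ψ : DirichletCharacter ℂ (modu (κ t) (M i)),
          ‖EP (PI (M i) (M j)) (fun p => ψ (p : ZMod (modu (κ t) (M i))))‖ ≤ 2 := by
        rw [← Finset.add_sum_erase Finset.univ _ (Finset.mem_univ (1 : DirichletCharacter ℂ (modu (κ t) (M i)))),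
          h3.1, norm_one]
        linarith [h3.2]
      have h5 : (modu (κ t) (M i) : ℝ) / Real.log (M j) ≤ ε := by
        rw [div_le_iff₀ (by linarith)]
        have h6 := (hgood i t).2
        have h7 : Real.log (M (i + 1)) ≤ Real.log (M j) := by
          apply Real.log_le_log
          · have := hMge (i + 1)
            exact_mod_cast (by omega : 0 < M (i + 1))
          · exact_mod_cast hM.monotone hj.1
        calc (modu (κ t) (M i) : ℝ) ≤ ε * Real.log (M (i + 1)) := h6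
          _ ≤ ε * Real.log (M j) := mul_le_mul_of_nonneg_left h7 hε.le
      have h6 : Real.exp (8 - C) * ∑ ψ : DirichletCharacter ℂ (modu (κ t) (M i)),
          ‖EP (PI (M i) (M j)) (fun p => ψ (p : ZMod (modu (κ t) (M i))))‖ ≤ ε := by
        calc _ ≤ Real.exp (8 - C) * 2 := mul_le_mul_of_nonneg_left h4 (Real.exp_pos _).le
          _ ≤ ε := by linarith
      linarith
    -- sum over t
    have hsum1 : Real.log (M j) * (∑ t, EE (modu (κ t) (M i)) (PI (M i) (M j)) ρ - (Fintype.card ι : ℝ) * (2 * ε)) ≤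
        ∑ m ∈ Finset.Icc 1 ((M j) ^ C), (m : ℝ)⁻¹ * ∑ t, ρ ((κ t : ℕ) * ((M i)! * m) + 1) := by
      have h1 : Real.log (M j) * (∑ t, EE (modu (κ t) (M i)) (PI (M i) (M j)) ρ - (Fintype.card ι : ℝ) * (2 * ε)) =
          ∑ t, Real.log (M j) * (EE (modu (κ t) (M i)) (PI (M i) (M j)) ρ - 2 * ε) := by
        rw [← Finset.mul_sum, Finset.sum_sub_distrib, Finset.sum_const, Finset.card_univ, nsmul_eq_mul]
      rw [h1]
      simp_rw [Finset.mul_sum]
      rw [Finset.sum_comm]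
      apply Finset.sum_le_sum
      intro t _
      exact hdom t
    have hsum2 : ∑ m ∈ Finset.Icc 1 ((M j) ^ C), (m : ℝ)⁻¹ * ∑ t, ρ ((κ t : ℕ) * ((M i)! * m) + 1) ≤
        (c * (Fintype.card ι : ℝ)) * ((1 + C) * Real.log (M j)) := by
      have h1 : ∀ m ∈ Finset.Icc 1 ((M j) ^ C), (m : ℝ)⁻¹ * ∑ t, ρ ((κ t : ℕ) * ((M i)! * m) + 1) ≤
          (m : ℝ)⁻¹ * (c * (Fintype.card ι : ℝ)) := by
        intro m hm
        rw [Finset.mem_Icc] at hm
        apply mul_le_mul_of_nonneg_left _ (by positivity)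
        apply (hcon ((M i)! * m) ?_ ?_).le
        · exact Nat.mul_pos (Nat.factorial_pos _) hm.1
        · apply Nat.mul_le_mul
          · exact Nat.factorial_le (hM.monotone hi.le)
          · exact hm.2.trans (Nat.pow_le_pow_left (hM.monotone hj.2) C)
      have h2 : ∑ m ∈ Finset.Icc 1 ((M j) ^ C), (m : ℝ)⁻¹ ≤ (1 + C) * Real.log (M j) := by
        have h3 := harmonic_le_one_add_log ((M j) ^ C)
        rw [harmonic_eq_sum_Icc] at h3
        push_cast at h3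
        rw [Real.log_pow] at h3
        nlinarith
      calc _ ≤ ∑ m ∈ Finset.Icc 1 ((M j) ^ C), (m : ℝ)⁻¹ * (c * (Fintype.card ι : ℝ)) := Finset.sum_le_sum h1
        _ = (c * (Fintype.card ι : ℝ)) * ∑ m ∈ Finset.Icc 1 ((M j) ^ C), (m : ℝ)⁻¹ := by
            rw [← Finset.sum_mul, mul_comm]
        _ ≤ _ := mul_le_mul_of_nonneg_left h2 (by positivity)
    have h3 := hsum1.trans hsum2
    have h4 : Real.log (M j) * (∑ t, EE (modu (κ t) (M i)) (PI (M i) (M j)) ρ - (Fintype.card ι : ℝ) * (2 * ε)) ≤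
        Real.log (M j) * ((c * (Fintype.card ι : ℝ)) * (1 + C)) := by
      calc _ ≤ _ := h3
        _ = _ := by ring
    have h5 := le_of_mul_le_mul_left h4 (by linarith)
    linarith
  -- sum over pairs
  set p : ℝ := ∑ i ∈ Finset.range l, ((Finset.Ioc i l).card : ℝ) with hp
  have hpval : p = l * (l + 1) / 2 := sum_Ioc_card l
  have hp0 : 0 < p := by rw [hpval]; positivity
  have hU : ∑ t, ∑ i ∈ Finset.range l, ∑ j ∈ Finset.Ioc i l, EE (modu (κ t) (M i)) (PI (M i) (M j)) ρ ≤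
      p * ((Fintype.card ι : ℝ) * (c * (1 + C) + 2 * ε)) := by
    rw [Finset.sum_comm, hp, Finset.sum_mul]
    apply Finset.sum_le_sum
    intro i hi
    rw [Finset.sum_comm]
    calc ∑ j ∈ Finset.Ioc i l, ∑ t, EE (modu (κ t) (M i)) (PI (M i) (M j)) ρ
        ≤ ∑ j ∈ Finset.Ioc i l, (Fintype.card ι : ℝ) * (c * (1 + C) + 2 * ε) :=
          Finset.sum_le_sum (fun j hj => hup i hi j hj)
      _ = _ := by rw [Finset.sum_const, nsmul_eq_mul]
  have hL : (Fintype.card ι : ℝ) * (w * (1 - ε) * p - 3 * (l + 1)) ≤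
      ∑ t, ∑ i ∈ Finset.range l, ∑ j ∈ Finset.Ioc i l, EE (modu (κ t) (M i)) (PI (M i) (M j)) ρ := by
    have h1 : (Fintype.card ι : ℝ) * (w * (1 - ε) * p - 3 * (l + 1)) =
        ∑ t : ι, (w * (1 - ε) * p - 3 * (l + 1)) := by
      rw [Finset.sum_const, Finset.card_univ, nsmul_eq_mul]
    rw [h1]
    apply Finset.sum_le_sum
    intro t _
    exact pair_sum_ge (κ t) l ε hε hε1 M hM ((hm₀.2 t).trans (hM0 ▸ le_refl _)) (fun i => hgood i t) w hw.le ρ hρ
  have h1 := hL.trans hU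
  have h2 : (Fintype.card ι : ℝ) * (w * (1 - ε) * p - 3 * (l + 1)) ≤
      (Fintype.card ι : ℝ) * (p * (c * (1 + C) + 2 * ε)) := by
    calc _ ≤ _ := h1
      _ = _ := by ring
  have h3 := le_of_mul_le_mul_left h2 hcardι
  have hcC : c * (1 + C) = w / 4 := by
    rw [hc]
    field_simp
  rw [hcC] at h3
  -- 3(l+1) ≤ p w / 8
  have h4 : 3 * ((l : ℝ) + 1) ≤ p * (w / 8) := by
    rw [hpval]
    nlinarith
  have h5 : w * (1 - ε) * p ≤ p * (w / 4 + 2 * ε) + p * (w / 8) := by linarith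
  have h6 : w * (1 - ε) ≤ w / 4 + 2 * ε + w / 8 := by
    have : p * (w * (1 - ε)) ≤ p * (w / 4 + 2 * ε + w / 8) := by linarith
    exact le_of_mul_le_mul_left this hp0
  rw [hεdef] at h6
  nlinarith

end Pool.Agent.Helper89
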