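import Pool.Agent.Helper89.J

set_option autoImplicit false

namespace Pool.Agent.Helper89

open Nat Filter

/-- `δ`-largeness (multiplicative upper Banach density at least `δ`). -/
def Large (δ : ℝ) (A : Set ℕ) : Prop :=
  ∀ (ι : Type) [Fintype ι] [Nonempty ι] (κ : ι → ℕ+), ∃ y, 0 < y ∧
    δ * (Fintype.card ι : ℝ) ≤ ∑ t, A.indicator (fun _ => (1 : ℝ)) ((κ t : ℕ) * y)

def IsLarge (A : Set ℕ) : Prop := ∃ δ > 0, Large δ A

lemma Large.le_one {δ : ℝ} {A : Set ℕ} (h : Large δ A) : δ ≤ 1 := by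
  obtain ⟨y, _, h1⟩ := h Unit (fun _ => 1)
  simp only [Fintype.card_unit, Nat.cast_one, mul_one, Finset.univ_unique, Finset.sum_const,
    Finset.card_singleton, one_smul] at h1
  refine h1.trans ?_
  apply Set.indicator_le_self' (fun _ _ => zero_le_one)

lemma not_isLarge_empty : ¬ IsLarge ∅ := by
  rintro ⟨δ, hδ, h⟩
  obtain ⟨y, _, h1⟩ := h Unit (fun _ => 1)
  simp at h1
  linarith

lemma IsLarge.mono {A B : Set ℕ} (h : IsLarge A) (hAB : A ⊆ B) : IsLarge B := by
  obtain ⟨δ, hδ, h⟩ := h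
  refine ⟨δ, hδ, fun ι _ _ κ => ?_⟩
  obtain ⟨y, hy, h1⟩ := h ι κ
  refine ⟨y, hy, h1.trans ?_⟩
  apply Finset.sum_le_sum
  intro t _
  exact Set.indicator_le_indicator_of_subset hAB (fun _ => zero_le_one) _

lemma isLarge_univ : IsLarge Set.univ := by
  refine ⟨1, one_pos, fun ι _ _ κ => ⟨1, one_pos, ?_⟩⟩
  simp

lemma IsLarge.union {A B C : Set ℕ} (h : IsLarge A) (hABC : A ⊆ B ∪ C) : IsLarge B ∨ IsLarge C := by
  by_contra hcon
  push Not at hcon
  obtain ⟨hB, hC⟩ := hcon
  obtain ⟨δ, hδ, h⟩ := h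
  have hB' : ¬ Large (δ / 2) B := fun h' => hB ⟨δ / 2, by linarith, h'⟩
  have hC' : ¬ Large (δ / 2) C := fun h' => hC ⟨δ / 2, by linarith, h'⟩
  unfold Large at hB' hC'
  push Not at hB' hC'
  obtain ⟨ι, _, _, κ, h1⟩ := hB'
  obtain ⟨ι', _, _, κ', h2⟩ := hC'
  obtain ⟨y, hy, h3⟩ := h (ι × ι') (fun t => κ t.1 * κ' t.2)
  have hc1 : (0 : ℝ) < Fintype.card ι := by exact_mod_cast Fintype.card_pos
  have hc2 : (0 : ℝ) < Fintype.card ι' := by exact_mod_cast Fintype.card_pos
  have h4 : ∑ t : ι × ι', B.indicator (fun _ => (1 : ℝ)) (((κ t.1 * κ' t.2 : ℕ+) : ℕ) * y) <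
      (Fintype.card ι' : ℝ) * (δ / 2 * Fintype.card ι) := by
    rw [Fintype.sum_prod_type_right]
    calc ∑ s : ι', ∑ t : ι, B.indicator (fun _ => (1 : ℝ)) (((κ t * κ' s : ℕ+) : ℕ) * y)
        < ∑ s : ι', (δ / 2 * (Fintype.card ι : ℝ)) := by
          apply Finset.sum_lt_sum_of_nonempty Finset.univ_nonempty
          intro s _
          have := h1 ((κ' s : ℕ) * y) (Nat.mul_pos (κ' s).pos hy)
          refine lt_of_le_of_lt (le_of_eq ?_) this
          apply Finset.sum_congr rfl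
          intro t _
          rw [PNat.mul_coe, mul_assoc]
      _ = _ := by rw [Finset.sum_const, Finset.card_univ, nsmul_eq_mul]
  have h5 : ∑ t : ι × ι', C.indicator (fun _ => (1 : ℝ)) (((κ t.1 * κ' t.2 : ℕ+) : ℕ) * y) <
      (Fintype.card ι : ℝ) * (δ / 2 * Fintype.card ι') := by
    rw [Fintype.sum_prod_type]
    calc ∑ s : ι, ∑ t : ι', C.indicator (fun _ => (1 : ℝ)) (((κ s * κ' t : ℕ+) : ℕ) * y)
        < ∑ s : ι, (δ / 2 * (Fintype.card ι' : ℝ)) := by
          apply Finset.sum_lt_sum_of_nonempty Finset.univ_nonempty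
          intro s _
          have := h2 ((κ s : ℕ) * y) (Nat.mul_pos (κ s).pos hy)
          refine lt_of_le_of_lt (le_of_eq ?_) this
          apply Finset.sum_congr rfl
          intro t _
          rw [PNat.mul_coe, mul_comm (κ s : ℕ), mul_assoc]
      _ = _ := by rw [Finset.sum_const, Finset.card_univ, nsmul_eq_mul]
  have h6 : ∑ t : ι × ι', A.indicator (fun _ => (1 : ℝ)) (((κ t.1 * κ' t.2 : ℕ+) : ℕ) * y) ≤
      ∑ t : ι × ι', B.indicator (fun _ => (1 : ℝ)) (((κ t.1 * κ' t.2 : ℕ+) : ℕ) * y) +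
      ∑ t : ι × ι', C.indicator (fun _ => (1 : ℝ)) (((κ t.1 * κ' t.2 : ℕ+) : ℕ) * y) := by
    rw [← Finset.sum_add_distrib]
    apply Finset.sum_le_sum
    intro t _
    by_cases hA : (((κ t.1 * κ' t.2 : ℕ+) : ℕ) * y) ∈ A
    · rw [Set.indicator_of_mem hA]
      rcases hABC hA with hB1 | hC1
      · rw [Set.indicator_of_mem hB1]
        have : 0 ≤ C.indicator (fun _ => (1 : ℝ)) (((κ t.1 * κ' t.2 : ℕ+) : ℕ) * y) :=
          Set.indicator_nonneg (fun _ _ => zero_le_one) _
        linarith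
      · rw [Set.indicator_of_mem hC1]
        have : 0 ≤ B.indicator (fun _ => (1 : ℝ)) (((κ t.1 * κ' t.2 : ℕ+) : ℕ) * y) :=
          Set.indicator_nonneg (fun _ _ => zero_le_one) _
        linarith
    · rw [Set.indicator_of_notMem hA]
      apply add_nonneg <;> exact Set.indicator_nonneg (fun _ _ => zero_le_one) _
  rw [Fintype.card_prod] at h3
  push_cast at h3 h4 h5 h6
  have : δ * ((Fintype.card ι : ℝ) * (Fintype.card ι' : ℝ)) <
      (Fintype.card ι' : ℝ) * (δ / 2 * Fintype.card ι) + (Fintype.card ι : ℝ) * (δ / 2 * Fintype.card ι') := by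
    linarith
  nlinarith

lemma IsLarge.biUnion {σ : Type} (S : Finset σ) (B : σ → Set ℕ) :
    ∀ A : Set ℕ, IsLarge A → A ⊆ ⋃ i ∈ S, B i → ∃ i ∈ S, IsLarge (B i) := by
  classical
  induction S using Finset.induction_on with
  | empty =>
    intro A hA hsub
    exfalso
    apply not_isLarge_empty
    apply hA.mono
    simpa using hsub
  | insert i S hi ih =>
    intro A hA hsub
    have hsub' : A ⊆ B i ∪ (A ∩ ⋃ i ∈ S, B i) := by
      intro x hx
      have := hsub hx
      rw [Finset.set_biUnion_insert] at this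
      rcases this with h | h
      · left; exact h
      · right; exact ⟨hx, h⟩
    rcases hA.union hsub' with h | h
    · exact ⟨i, Finset.mem_insert_self i S, h⟩
    · obtain ⟨j, hj, hj'⟩ := ih _ h Set.inter_subset_right
      exact ⟨j, Finset.mem_insert_of_mem hj, hj'⟩

/-- a large set gives a positive-definite function supported (below `B`) on its multiplicative
return ratios. -/
lemma color_PD (A : Set ℕ) (δ : ℝ) (hδ : 0 < δ) (hA : Large δ A) (B : ℕ) :
    ∃ ρ : ℕ → ℝ, PD ((δ / 2) ^ 2) ρ ∧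
      ∀ n, n ≠ 0 → n ≤ B → ρ n ≠ 0 → ∃ a > 0, a ∈ A ∧ a * n ∈ A := by
  classical
  set P : Finset ℕ := B.primesLE with hP
  set B' : ℕ := B + 1 with hB'
  set L : ℕ := 2 * P.card * B' + 1 with hL
  set L' : ℕ := L + B' with hL'
  have hL'pos : 0 < L' := by omega
  have : NeZero L' := ⟨hL'pos.ne'⟩
  have : NeZero L := ⟨by omega⟩
  have hPpos : ∀ p : P, 0 < (p : ℕ) := fun p => (Nat.prime_of_mem_primesLE p.2).pos
  let κ : (P → Fin L) → ℕ+ := fun e => ⟨∏ p : P, (p : ℕ) ^ (e p : ℕ),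
    Finset.prod_pos fun p _ => pow_pos (hPpos p) _⟩
  obtain ⟨y, hy, hdens⟩ := hA (P → Fin L) κ
  let G : Type := P → ZMod L'
  let v : ℕ → (P → ZMod L') := fun n p => ((n.factorization (p : ℕ) : ℕ) : ZMod L')
  let f : (P → ZMod L') → ℝ := fun x =>
    if (∀ p, (x p).val < L) ∧ (∏ p : P, (p : ℕ) ^ ((x p).val)) * y ∈ A then 1 else 0
  have hf0 : ∀ x, 0 ≤ f x := by
    intro x
    simp only [f]
    split_ifs <;> norm_num
  have hf1 : ∀ x, f x ≤ 1 := by
    intro x
    simp only [f]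
    split_ifs <;> norm_num
  -- the embedding of the box
  let emb : (P → Fin L) → (P → ZMod L') := fun e p => (((e p : ℕ)) : ZMod L')
  have hval : ∀ e p, (emb e p).val = (e p : ℕ) := by
    intro e p
    simp only [emb]
    apply ZMod.val_natCast_of_lt
    have := (e p).2
    omega
  have hinj : Function.Injective emb := by
    intro e e' h
    funext p
    apply Fin.ext
    rw [← hval e p, ← hval e' p, h]
  have hsum : δ * ((L : ℝ) ^ P.card) ≤ ∑ x, f x := by
    have h1 : (Fintype.card (P → Fin L) : ℝ) = (L : ℝ) ^ P.card := by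
      rw [Fintype.card_fun, Fintype.card_fin, Fintype.card_coe]
      push_cast
      rfl
    rw [h1] at hdens
    refine hdens.trans ?_
    have h2 : ∀ e, A.indicator (fun _ => (1 : ℝ)) ((κ e : ℕ) * y) = f (emb e) := by
      intro e
      have h3 : (κ e : ℕ) = ∏ p : P, (p : ℕ) ^ ((emb e p).val) := by
        simp only [κ, PNat.mk_coe]
        apply Finset.prod_congr rfl
        intro p _
        rw [hval]
      simp only [f, Set.indicator_apply, h3]
      have h4 : ∀ p, (emb e p).val < L := by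
        intro p
        rw [hval]
        exact (e p).2
      simp only [h4, implies_true, true_and]
    calc ∑ e, A.indicator (fun _ => (1 : ℝ)) ((κ e : ℕ) * y) = ∑ e, f (emb e) :=
          Finset.sum_congr rfl fun e _ => h2 e
      _ = ∑ x ∈ Finset.univ.map ⟨emb, hinj⟩, f x := by rw [Finset.sum_map]; rfl
      _ ≤ ∑ x, f x := by
          apply Finset.sum_le_sum_of_subset_of_nonneg (Finset.subset_univ _)
          intro x _ _
          exact hf0 x
  have hdens2 : δ / 2 * (Fintype.card (P → ZMod L') : ℝ) ≤ ∑ x, f x := by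
    refine le_trans ?_ hsum
    have h1 : (Fintype.card (P → ZMod L') : ℝ) = (L' : ℝ) ^ P.card := by
      rw [Fintype.card_fun, ZMod.card, Fintype.card_coe]
      push_cast
      rfl
    rw [h1]
    have hL'R : (0 : ℝ) < L' := by exact_mod_cast hL'pos
    have h2 : (1 : ℝ) / 2 ≤ ((L : ℝ) / L') ^ P.card := by
      have h3 : (L : ℝ) / L' = 1 + (-(B' / L' : ℝ)) := by
        rw [hL']
        push_cast
        have : ((L : ℝ) + (B' : ℝ)) ≠ 0 := by
          rw [hL'] at hL'R
          push_cast at hL'R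
          exact hL'R.ne'
        field_simp
        ring
      rw [h3]
      have h4 : (B' : ℝ) / L' ≤ 1 := by
        rw [div_le_one hL'R]
        exact_mod_cast (by omega : B' ≤ L')
      have h5 := one_add_mul_le_pow (a := -(B' / L' : ℝ)) (by linarith) P.card
      refine le_trans ?_ h5
      have h6 : (P.card : ℝ) * ((B' : ℝ) / L') ≤ 1 / 2 := by
        rw [mul_div_assoc', div_le_div_iff₀ hL'R (by norm_num)]
        have : P.card * B' * 2 ≤ 1 * L' := by
          rw [hL', hL]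
          nlinarith
        exact_mod_cast this
      linarith
    rw [div_pow, div_le_div_iff₀ (by norm_num) (by positivity)] at h2
    have h7 : (L' : ℝ) ^ P.card ≤ 2 * (L : ℝ) ^ P.card := by linarith
    calc δ / 2 * (L' : ℝ) ^ P.card ≤ δ / 2 * (2 * (L : ℝ) ^ P.card) :=
          mul_le_mul_of_nonneg_left h7 (by linarith)
      _ = δ * (L : ℝ) ^ P.card := by ring
  have hPD := PD_autocorr (P → ZMod L') v (by
      funext p
      simp [v]) (by
      intro m n hm hn
      funext p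
      simp only [v, Pi.add_apply]
      rw [Nat.factorization_mul hm hn]
      push_cast
      simp) f hf0 hf1 (δ / 2) (by linarith) hdens2
  refine ⟨_, hPD, ?_⟩
  intro n hn0 hnB hne
  have h1 : ∑ x, f x * f (x + v n) ≠ 0 := by
    intro h
    apply hne
    change _ * _ = (0 : ℝ)
    rw [h, mul_zero]
  obtain ⟨x, _, hx⟩ := Finset.exists_ne_zero_of_sum_ne_zero h1
  have hx1 : f x ≠ 0 := left_ne_zero_of_mul hx
  have hx2 : f (x + v n) ≠ 0 := right_ne_zero_of_mul hx
  have hx1' : (∀ p, (x p).val < L) ∧ (∏ p : P, (p : ℕ) ^ ((x p).val)) * y ∈ A := by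
    by_contra h
    apply hx1
    simp only [f]
    rw [if_neg h]
  have hx2' : (∀ p, ((x + v n) p).val < L) ∧ (∏ p : P, (p : ℕ) ^ (((x + v n) p).val)) * y ∈ A := by
    by_contra h
    apply hx2
    simp only [f]
    rw [if_neg h]
  refine ⟨(∏ p : P, (p : ℕ) ^ ((x p).val)) * y, ?_, hx1'.2, ?_⟩
  · exact Nat.mul_pos (Finset.prod_pos fun p _ => pow_pos (hPpos p) _) hy
  · have h2 : ∀ p : P, ((x + v n) p).val = (x p).val + n.factorization (p : ℕ) := by
      intro p
      have h3 := hx1'.1 p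
      have h4 : n.factorization (p : ℕ) < n := Nat.factorization_lt _ hn0
      have h5 : (v n p).val = n.factorization (p : ℕ) := by
        simp only [v]
        apply ZMod.val_natCast_of_lt
        omega
      rw [Pi.add_apply, ZMod.val_add_of_lt, h5]
      rw [h5]
      omega
    have h3 : ∏ p : P, (p : ℕ) ^ (((x + v n) p).val) = (∏ p : P, (p : ℕ) ^ ((x p).val)) * n := by
      have h4 : ∏ p : P, (p : ℕ) ^ (n.factorization (p : ℕ)) = n := by
        have h5 := Nat.prod_factorization_pow_eq_self hn0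
        rw [Finsupp.prod_of_support_subset (s := P)] at h5
        · rw [← Finset.prod_coe_sort] at h5
          exact h5
        · intro p hp
          rw [Nat.support_factorization, Nat.mem_primeFactors] at hp
          rw [hP, Nat.mem_primesLE]
          exact ⟨(Nat.le_of_dvd (Nat.pos_of_ne_zero hn0) hp.2.1).trans hnB, hp.1⟩
        · intro p _
          simp
      conv_rhs => rw [← h4]
      rw [← Finset.prod_mul_distrib]
      apply Finset.prod_congr rfl
      intro p _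
      rw [h2 p, pow_add]
    have h6 := hx2'.2
    rw [h3] at h6
    have h7 : (∏ p : P, (p : ℕ) ^ ((x p).val)) * n * y = (∏ p : P, (p : ℕ) ^ ((x p).val)) * y * n := by ring
    rw [h7] at h6
    exact h6

/-- the main recurrence claim. -/
lemma claim {σ : Type} (C : Finset σ) (A : σ → Set ℕ) (hA : ∀ c ∈ C, IsLarge (A c)) :
    IsLarge {b | 0 < b ∧ ∀ c ∈ C, ∃ a > 0, a ∈ A c ∧ a * (b + 1) ∈ A c} := by
  classical
  have h1 : ∀ c, ∃ δ : ℝ, c ∈ C → 0 < δ ∧ Large δ (A c) := by
    intro c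
    by_cases hc : c ∈ C
    · obtain ⟨δ, hδ, h⟩ := hA c hc
      exact ⟨δ, fun _ => ⟨hδ, h⟩⟩
    · exact ⟨0, fun h => absurd h hc⟩
  choose δ hδ using h1
  set w : ℝ := ∏ c ∈ C, (δ c / 2) ^ 2 with hw
  have hw0 : 0 < w := by
    apply Finset.prod_pos
    intro c hc
    have := (hδ c hc).1
    positivity
  have hw1 : w ≤ 1 := by
    apply Finset.prod_le_one
    · intro c _; positivity
    · intro c hc
      have h2 := (hδ c hc).1
      have h3 := (hδ c hc).2.le_one
      nlinarith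
  obtain ⟨c₀, hc₀, hkey⟩ := keyProp w hw0 hw1
  refine ⟨c₀, hc₀, ?_⟩
  intro ι _ _ κ
  obtain ⟨Y, hY⟩ := hkey ι κ
  set B : ℕ := (∑ t, (κ t : ℕ)) * Y + 1 with hB
  have h2 : ∀ c, ∃ ρ : ℕ → ℝ, c ∈ C → PD ((δ c / 2) ^ 2) ρ ∧
      ∀ n, n ≠ 0 → n ≤ B → ρ n ≠ 0 → ∃ a > 0, a ∈ A c ∧ a * n ∈ A c := by
    intro c
    by_cases hc : c ∈ C
    · obtain ⟨ρ, h⟩ := color_PD (A c) (δ c) (hδ c hc).1 (hδ c hc).2 B
      exact ⟨ρ, fun _ => h⟩
    · exact ⟨0, fun h => absurd h hc⟩
  choose ρ hρ using h2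
  have hPD : PD w (fun n => ∏ c ∈ C, ρ c n) :=
    PD_prod C _ ρ (fun c _ => by positivity) (fun c hc => (hρ c hc).1)
  obtain ⟨y, hy0, hyY, hy⟩ := hY _ hPD
  refine ⟨y, hy0, hy.trans ?_⟩
  apply Finset.sum_le_sum
  intro t _
  have hn0 : (κ t : ℕ) * y + 1 ≠ 0 := by omega
  have hnB : (κ t : ℕ) * y + 1 ≤ B := by
    have h3 : (κ t : ℕ) ≤ ∑ t, (κ t : ℕ) :=
      Finset.single_le_sum (f := fun t => (κ t : ℕ)) (fun _ _ => Nat.zero_le _) (Finset.mem_univ t)
    have h4 := Nat.mul_le_mul h3 hyY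
    omega
  by_cases hmem : (κ t : ℕ) * y ∈ {b | 0 < b ∧ ∀ c ∈ C, ∃ a > 0, a ∈ A c ∧ a * (b + 1) ∈ A c}
  · rw [Set.indicator_of_mem hmem]
    exact PD_le_one hPD _ hn0
  · rw [Set.indicator_of_notMem hmem]
    simp only [Set.mem_ofPred_eq, not_and, not_forall] at hmem
    obtain ⟨c, hc, hno⟩ := hmem (Nat.mul_pos (κ t).pos hy0)
    apply le_of_eq
    apply Finset.prod_eq_zero hc
    by_contra hne
    exact hno ((hρ c hc).2 _ hn0 hnB hne)

/-- The pattern `a, b, a(b+1)` is partition regular. -/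
theorem main (r : ℕ) (c : ℕ → Fin r) :
    ∃ a b : ℕ, 0 < a ∧ 0 < b ∧ c a = c b ∧ c a = c (a * (b + 1)) := by
  classical
  by_contra hcon
  push Not at hcon
  let C : Finset (Fin r) := Finset.univ.filter (fun i => IsLarge {a | c a = i})
  have hR := claim C (fun i => {a | c a = i}) (fun i hi => (Finset.mem_filter.mp hi).2)
  have hsub : {b | 0 < b ∧ ∀ i ∈ C, ∃ a > 0, a ∈ {a | c a = i} ∧ a * (b + 1) ∈ {a | c a = i}} ⊆
      ⋃ i ∈ (Finset.univ \ C), {a | c a = i} := by
    intro b hb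
    obtain ⟨hb0, hb⟩ := hb
    simp only [Set.mem_iUnion]
    refine ⟨c b, ?_, rfl⟩
    rw [Finset.mem_sdiff]
    refine ⟨Finset.mem_univ _, fun hmem => ?_⟩
    obtain ⟨a, ha, h1, h2⟩ := hb (c b) hmem
    simp only [Set.mem_ofPred_eq] at h1 h2
    exact hcon a b ha hb0 h1 (h1.trans h2.symm)
  obtain ⟨i, hi, hlarge⟩ := IsLarge.biUnion (Finset.univ \ C) (fun i => {a | c a = i}) _ hR hsub
  rw [Finset.mem_sdiff] at hi
  exact hi.2 (Finset.mem_filter.mpr ⟨Finset.mem_univ _, hlarge⟩)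

end Pool.Agent.Helper89
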